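import Pool.Agent.Helper69K1.GrS.Stm
import Pool.Agent.Helper69K1.Gr.M

/-!
# Piece F1: soundness of the enlarged space, from the abstract statement F1a
-/

set_option autoImplicit false

namespace Pool.Agent.Helper69K1.GrS

open Module Pool.Agent.Helper69K1 Pool.Agent.Helper69K1.Gr Pool.Agent.Helper69K1.GrB

namespace PieceF1

variable {N : ℕ}

/-- base change of matrices -/
noncomputable def mp : Matrix (Fin N) (Fin N) ℚ →ₐ[ℚ] Matrix (Fin N) (Fin N) ℂ :=
  (Algebra.ofId ℚ ℂ).mapMatrix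

theorem mp_apply (X : Matrix (Fin N) (Fin N) ℚ) : mp X = X.map (algebraMap ℚ ℂ) := rfl

theorem mp_trace (X : Matrix (Fin N) (Fin N) ℚ) :
    (mp X).trace = algebraMap ℚ ℂ X.trace := by
  rw [mp_apply]
  simp [Matrix.trace, map_sum]

theorem mp_det (X : Matrix (Fin N) (Fin N) ℚ) :
    (mp X).det = algebraMap ℚ ℂ X.det := by
  rw [RingHom.map_det]
  rfl

variable (B : Submodule ℚ (Matrix (Fin N) (Fin N) ℚ))

theorem mp_B (x : Matrix (Fin N) (Fin N) ℚ) (hx : x ∈ B) : mp x ∈ cxs B :=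
  Submodule.subset_span ⟨x, hx, rfl⟩

theorem mp_A (a : Matrix (Fin N) (Fin N) ℚ)
    (ha : a ∈ Algebra.adjoin ℚ (B : Set (Matrix (Fin N) (Fin N) ℚ))) :
    mp a ∈ Algebra.adjoin ℂ (cxs B : Set (Matrix (Fin N) (Fin N) ℂ)) := by
  induction ha using Algebra.adjoin_induction with
  | mem x hx => exact Algebra.subset_adjoin (mp_B B x hx)
  | algebraMap r =>
    rw [AlgHom.commutes, IsScalarTower.algebraMap_apply ℚ ℂ (Matrix (Fin N) (Fin N) ℂ)]
    exact Subalgebra.algebraMap_mem _ _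
  | add x y _ _ hx hy => rw [map_add]; exact add_mem hx hy
  | mul x y _ _ hx hy => rw [map_mul]; exact mul_mem hx hy

theorem C_span (c : Matrix (Fin N) (Fin N) ℂ)
    (hc : c ∈ Algebra.adjoin ℂ (cxs B : Set (Matrix (Fin N) (Fin N) ℂ))) :
    c ∈ Submodule.span ℂ (mp ''
      (Algebra.adjoin ℚ (B : Set (Matrix (Fin N) (Fin N) ℚ)) : Set (Matrix (Fin N) (Fin N) ℚ))) := by
  induction hc using Algebra.adjoin_induction with
  | mem x hx =>
    refine (Submodule.span_mono ?_ : _ ≤ _) (show x ∈ Submodule.span ℂ _ from hx)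
    rintro Z ⟨X, hX, rfl⟩
    exact ⟨X, Algebra.subset_adjoin hX, rfl⟩
  | algebraMap r =>
    rw [Algebra.algebraMap_eq_smul_one]
    refine Submodule.smul_mem _ _ (Submodule.subset_span ⟨1, one_mem _, map_one _⟩)
  | add x y _ _ hx hy => exact add_mem hx hy
  | mul x y _ _ hx hy =>
    have h1 := Submodule.mul_mem_mul hx hy
    rw [Submodule.span_mul_span] at h1
    refine (Submodule.span_mono ?_ : _ ≤ _) h1
    rintro _ ⟨_, ⟨a, ha, rfl⟩, _, ⟨b, hb, rfl⟩, rfl⟩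
    exact ⟨a * b, mul_mem ha hb, map_mul _ _ _⟩

theorem mp_rad (r : Matrix (Fin N) (Fin N) ℚ)
    (hr : r ∈ radG (Algebra.adjoin ℚ (B : Set (Matrix (Fin N) (Fin N) ℚ)))) :
    mp r ∈ radG (Algebra.adjoin ℂ (cxs B : Set (Matrix (Fin N) (Fin N) ℂ))) := by
  refine ⟨mp_A B r hr.1, fun c hc => ?_⟩
  have h1 := C_span B c hc
  clear hc
  induction h1 using Submodule.span_induction with
  | mem x hx =>
    obtain ⟨a, ha, rfl⟩ := hx
    rw [← map_mul, mp_trace, hr.2 a ha, map_zero]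
  | zero => rw [mul_zero, Matrix.trace_zero]
  | add x y _ _ hx hy => rw [mul_add, Matrix.trace_add, hx, hy, add_zero]
  | smul t x _ hx => rw [mul_smul_comm, Matrix.trace_smul, hx, smul_zero]

theorem mp_zt (z : Matrix (Fin N) (Fin N) ℚ)
    (hz : z ∈ ztG (Algebra.adjoin ℚ (B : Set (Matrix (Fin N) (Fin N) ℚ)))) :
    mp z ∈ ztG (Algebra.adjoin ℂ (cxs B : Set (Matrix (Fin N) (Fin N) ℂ))) := by
  refine ⟨mp_A B z hz.1, fun c hc => ?_⟩
  have h1 := C_span B c hc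
  clear hc
  induction h1 using Submodule.span_induction with
  | mem x hx =>
    obtain ⟨a, ha, rfl⟩ := hx
    rw [← map_mul, ← map_mul, ← map_sub]
    exact mp_rad B _ (hz.2 a ha)
  | zero => rw [mul_zero, zero_mul, sub_zero]; exact zero_mem _
  | add x y _ _ hx hy =>
    have h2 : mp z * (x + y) - (x + y) * mp z =
        (mp z * x - x * mp z) + (mp z * y - y * mp z) := by
      rw [mul_add, add_mul]; abel
    rw [h2]
    exact add_mem hx hy
  | smul t x _ hx =>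
    have h2 : mp z * (t • x) - (t • x) * mp z = t • (mp z * x - x * mp z) := by
      rw [mul_smul_comm, smul_mul_assoc, smul_sub]
    rw [h2]
    exact Submodule.smul_mem _ _ hx

theorem mat_nil (X : Matrix (Fin N) (Fin N) ℂ) (h : ∀ m : ℕ, 0 < m → (X ^ m).trace = 0) :
    IsNilpotent (Matrix.toLin' X) := by
  apply PieceM.nil_of_trace
  intro m hm
  rw [← Matrix.toLin'_pow, Matrix.trace_toLin'_eq]
  exact h m hm

theorem inj_iff (X : Matrix (Fin N) (Fin N) ℂ) :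
    Function.Injective (Matrix.toLin' X) ↔ X.det ≠ 0 := by
  rw [← isUnit_iff_ne_zero, ← Matrix.isUnit_iff_isUnit_det, ← Matrix.mulVec_injective_iff_isUnit]
  rfl

end PieceF1

open PieceF1 in
theorem t_F1 (h : S_F1a) : S_F1 := by
  intro N B Y hY hdet
  set C := Algebra.adjoin ℂ (cxs B : Set (Matrix (Fin N) (Fin N) ℂ)) with hC
  set ρ : C →ₐ[ℂ] Module.End ℂ (Fin N → ℂ) :=
    ((Matrix.toLinAlgEquiv' : Matrix (Fin N) (Fin N) ℂ ≃ₐ[ℂ] _) :
      Matrix (Fin N) (Fin N) ℂ →ₐ[ℂ] Module.End ℂ (Fin N → ℂ)).comp C.val with hρ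
  have hρa : ∀ c : C, ρ c = Matrix.toLin' (c : Matrix (Fin N) (Fin N) ℂ) := fun c => rfl
  set R : Submodule ℂ C := (radG C).comap C.val.toLinearMap with hR
  set B' : Submodule ℂ C := (cxs B).comap C.val.toLinearMap with hB'
  have hRmem : ∀ c : C, c ∈ R ↔ (c : Matrix (Fin N) (Fin N) ℂ) ∈ radG C := fun c => Iff.rfl
  have hBmem : ∀ c : C, c ∈ B' ↔ (c : Matrix (Fin N) (Fin N) ℂ) ∈ cxs B := fun c => Iff.rfl
  have hideal : ∀ a : C, ∀ r ∈ R, a * r ∈ R := by
    intro a r hr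
    rw [hRmem] at hr ⊢
    refine ⟨(a * r).2, fun b hb => ?_⟩
    have h1 : ((a * r : C) : Matrix (Fin N) (Fin N) ℂ) * b =
        (a : Matrix (Fin N) (Fin N) ℂ) * ((r : Matrix (Fin N) (Fin N) ℂ) * b) := by
      rw [← mul_assoc]; rfl
    rw [h1, Matrix.trace_mul_comm, mul_assoc]
    exact hr.2 _ (mul_mem hb a.2)
  have hnil : ∀ r ∈ R, IsNilpotent (ρ r) := by
    intro r hr
    rw [hρa]
    apply mat_nil
    intro m hm
    obtain ⟨m, rfl⟩ := Nat.exists_eq_succ_of_ne_zero hm.ne'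
    rw [Nat.succ_eq_add_one, pow_succ']
    exact hr.2 _ (pow_mem r.2 m)
  have key : ∀ W ∈ hG B, ∃ y : C, (y : Matrix (Fin N) (Fin N) ℂ) = mp W ∧
      y ∈ Submodule.span ℂ {y : C | ∃ z x : C, (∀ a, z * a - a * z ∈ R) ∧ x ∈ B' ∧ y = z * x} ⊔ R := by
    intro W hW
    obtain ⟨W1, hW1, W2, hW2, rfl⟩ := Submodule.mem_sup.1 hW
    have h1 : ∃ y : C, (y : Matrix (Fin N) (Fin N) ℂ) = mp W1 ∧
      y ∈ Submodule.span ℂ {y : C | ∃ z x : C, (∀ a, z * a - a * z ∈ R) ∧ x ∈ B' ∧ y = z * x} := by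
      clear hW
      induction hW1 using Submodule.mul_induction_on' with
      | mem_mul_mem z hz x hx =>
        have hz' := mp_zt B z hz
        have hx' := mp_B B x hx
        refine ⟨⟨mp z, hz'.1⟩ * ⟨mp x, Algebra.subset_adjoin hx'⟩, ?_, ?_⟩
        · rw [map_mul]; rfl
        · refine Submodule.subset_span ⟨⟨mp z, hz'.1⟩, ⟨mp x, Algebra.subset_adjoin hx'⟩,
            fun a => ?_, hx', rfl⟩
          exact hz'.2 a a.2
      | add x hx y hy ihx ihy =>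
        obtain ⟨u, hu1, hu2⟩ := ihx
        obtain ⟨v, hv1, hv2⟩ := ihy
        refine ⟨u + v, ?_, add_mem hu2 hv2⟩
        rw [map_add, ← hu1, ← hv1]; rfl
    obtain ⟨y1, hy1, hy1'⟩ := h1
    have h2 := mp_rad B W2 hW2
    refine ⟨y1 + ⟨mp W2, h2.1⟩, ?_, ?_⟩
    · rw [map_add, ← hy1]; rfl
    · exact add_mem (Submodule.mem_sup_left hy1') (Submodule.mem_sup_right h2)
  obtain ⟨y, hy1, hy2⟩ := key Y hY
  obtain ⟨X, hX, hXi⟩ := h C R B' hideal (Fin N → ℂ) ρ hnil y hy2 (by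
    rw [hρa, inj_iff, hy1, mp_det]
    exact (map_ne_zero _).2 hdet)
  refine ⟨X, hX, ?_⟩
  rwa [hρa, inj_iff] at hXi

end Pool.Agent.Helper69K1.GrS
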