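import Pool.Agent.Helper69K1.GrS.Stm


/-!
# F1a: an injective element of the enlarged space yields one of the space
-/

namespace Pool.Agent.Helper69K1.GrS

open Module

namespace F1a

variable {U : Type} [AddCommGroup U] [Module ℂ U] [FiniteDimensional ℂ U]

/-- If `P` is injective, then `P + t Q` is injective for all but finitely many `t`. -/
theorem finite_bad_left (P Q : End ℂ U) (hP : Function.Injective P) :
    {t : ℂ | ¬ Function.Injective (P + t • Q)}.Finite := by
  classical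
  have hu : IsUnit P := (Module.End.isUnit_iff P).2
    ⟨hP, LinearMap.surjective_of_injective hP⟩
  obtain ⟨u, rfl⟩ := hu
  have hf := Module.End.finite_hasEigenvalue ((↑(u⁻¹) : End ℂ U) * Q)
  refine (hf.image (fun s => -s⁻¹)).subset ?_
  intro t ht
  simp only [Set.mem_ofPred_eq] at ht
  rw [injective_iff_map_eq_zero] at ht
  push Not at ht
  obtain ⟨v, hv, hv0⟩ := ht
  have ht0 : t ≠ 0 := by
    rintro rfl
    rw [zero_smul, add_zero] at hv
    exact hv0 (hP (by rw [hv, map_zero]))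
  have h1 : v + t • ((↑(u⁻¹) : End ℂ U) * Q) v = 0 := by
    have h2 : (↑(u⁻¹) : End ℂ U) (((↑u : End ℂ U) + t • Q) v) = 0 := by rw [hv, map_zero]
    rw [LinearMap.add_apply, map_add, LinearMap.smul_apply, map_smul, ← Module.End.mul_apply,
      ← Units.val_mul, inv_mul_cancel, Units.val_one, Module.End.one_apply,
      ← Module.End.mul_apply] at h2
    exact h2
  refine ⟨-t⁻¹, ?_, ?_⟩
  · simp only [Set.mem_ofPred_eq]
    refine Module.End.hasEigenvalue_of_hasEigenvector (x := v) ⟨?_, hv0⟩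
    rw [Module.End.mem_eigenspace_iff]
    have h3 : t • ((↑(u⁻¹) : End ℂ U) * Q) v = -v := by
      rw [eq_neg_iff_add_eq_zero, add_comm]; exact h1
    have h4 : ((↑(u⁻¹) : End ℂ U) * Q) v = t⁻¹ • (-v) := by
      rw [← h3, smul_smul, inv_mul_cancel₀ ht0, one_smul]
    rw [h4, smul_neg, neg_smul]
  · simp

/-- If `Q` is injective, then `P + t Q` is injective for all but finitely many `t`. -/
theorem finite_bad_right (P Q : End ℂ U) (hQ : Function.Injective Q) :
    {t : ℂ | ¬ Function.Injective (P + t • Q)}.Finite := by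
  classical
  have hu : IsUnit Q := (Module.End.isUnit_iff Q).2
    ⟨hQ, LinearMap.surjective_of_injective hQ⟩
  obtain ⟨u, rfl⟩ := hu
  have hf := Module.End.finite_hasEigenvalue ((↑(u⁻¹) : End ℂ U) * P)
  refine (hf.image (fun s => -s)).subset ?_
  intro t ht
  simp only [Set.mem_ofPred_eq] at ht
  rw [injective_iff_map_eq_zero] at ht
  push Not at ht
  obtain ⟨v, hv, hv0⟩ := ht
  have h1 : ((↑(u⁻¹) : End ℂ U) * P) v + t • v = 0 := by
    have h2 : (↑(u⁻¹) : End ℂ U) ((P + t • (↑u : End ℂ U)) v) = 0 := by rw [hv, map_zero]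
    rw [LinearMap.add_apply, map_add, LinearMap.smul_apply, map_smul,
      ← Module.End.mul_apply (↑(u⁻¹) : End ℂ U) (↑u : End ℂ U),
      ← Units.val_mul, inv_mul_cancel, Units.val_one, Module.End.one_apply,
      ← Module.End.mul_apply] at h2
    exact h2
  refine ⟨-t, ?_, ?_⟩
  · simp only [Set.mem_ofPred_eq]
    refine Module.End.hasEigenvalue_of_hasEigenvector (x := v) ⟨?_, hv0⟩
    rw [Module.End.mem_eigenspace_iff, neg_smul]
    exact eq_neg_of_add_eq_zero_left h1
  · simp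

/-- The representation on the quotient by an invariant subspace. -/
def quo {𝓐 : Type} [Ring 𝓐] [Algebra ℂ 𝓐] {V : Type} [AddCommGroup V] [Module ℂ V]
    (ρ : 𝓐 →ₐ[ℂ] End ℂ V) (W : Submodule ℂ V) (hW : ∀ a, W ≤ W.comap (ρ a)) :
    𝓐 →ₐ[ℂ] End ℂ (V ⧸ W) :=
  AlgHom.ofLinearMap
    { toFun := fun a => W.mapQ W (ρ a) (hW a)
      map_add' := fun a b => by
        apply LinearMap.ext; intro x
        obtain ⟨v, rfl⟩ := W.mkQ_surjective x
        simp
      map_smul' := fun c a => by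
        apply LinearMap.ext; intro x
        obtain ⟨v, rfl⟩ := W.mkQ_surjective x
        simp }
    (by
      apply LinearMap.ext; intro x
      obtain ⟨v, rfl⟩ := W.mkQ_surjective x
      simp)
    (fun a b => by
      apply LinearMap.ext; intro x
      obtain ⟨v, rfl⟩ := W.mkQ_surjective x
      simp)

theorem quo_mk {𝓐 : Type} [Ring 𝓐] [Algebra ℂ 𝓐] {V : Type} [AddCommGroup V] [Module ℂ V]
    (ρ : 𝓐 →ₐ[ℂ] End ℂ V) (W : Submodule ℂ V) (hW : ∀ a, W ≤ W.comap (ρ a)) (a : 𝓐) (v : V) :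
    quo ρ W hW a (Submodule.Quotient.mk v) = Submodule.Quotient.mk (ρ a v) := by
  simp [quo]

/-- Minimal nonzero invariant subspace. -/
theorem exists_min {𝓐 : Type} [Ring 𝓐] [Algebra ℂ 𝓐] {V : Type} [AddCommGroup V] [Module ℂ V]
    [FiniteDimensional ℂ V] (ρ : 𝓐 →ₐ[ℂ] End ℂ V) (hV : 0 < finrank ℂ V) :
    ∃ W : Submodule ℂ V, W ≠ ⊥ ∧ (∀ a, ∀ w ∈ W, ρ a w ∈ W) ∧
      ∀ U : Submodule ℂ V, U ≠ ⊥ → U ≤ W → (∀ a, ∀ w ∈ U, ρ a w ∈ U) → U = W := by
  classical
  have hex : ∃ n : ℕ, ∃ W : Submodule ℂ V, W ≠ ⊥ ∧ (∀ a, ∀ w ∈ W, ρ a w ∈ W) ∧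
      finrank ℂ W = n := by
    refine ⟨_, ⊤, ?_, fun _ _ _ => Submodule.mem_top, rfl⟩
    intro h
    have : finrank ℂ (⊤ : Submodule ℂ V) = 0 := by rw [h, finrank_bot]
    rw [finrank_top] at this
    omega
  obtain ⟨W, hW0, hWi, hWn⟩ := Nat.find_spec hex
  refine ⟨W, hW0, hWi, fun U hU0 hUW hUi => ?_⟩
  have h1 : Nat.find hex ≤ finrank ℂ U := Nat.find_min' hex ⟨U, hU0, hUi, rfl⟩
  exact Submodule.eq_of_le_of_finrank_le hUW (by rw [hWn]; exact h1)

theorem main {𝓐 : Type} [Ring 𝓐] [Algebra ℂ 𝓐] (R B : Submodule ℂ 𝓐)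
    (hR : ∀ a, ∀ r ∈ R, a * r ∈ R) (Y : 𝓐)
    (hY : Y ∈ Submodule.span ℂ {y | ∃ z x, (∀ a, z * a - a * z ∈ R) ∧ x ∈ B ∧ y = z * x} ⊔ R) :
    ∀ (n : ℕ) (V : Type) [AddCommGroup V] [Module ℂ V] [FiniteDimensional ℂ V]
      (ρ : 𝓐 →ₐ[ℂ] End ℂ V), finrank ℂ V = n → (∀ r ∈ R, IsNilpotent (ρ r)) →
      Function.Injective (ρ Y) → ∃ X ∈ B, Function.Injective (ρ X) := by
  intro n
  induction n using Nat.strong_induction_on with
  | _ n ih =>
  intro V _ _ _ ρ hn hnil hinj
  rcases Nat.eq_zero_or_pos (finrank ℂ V) with h0 | hpos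
  · have : Subsingleton V := Module.finrank_zero_iff.1 h0
    exact ⟨0, B.zero_mem, Function.injective_of_subsingleton _⟩
  obtain ⟨W, hW0, hWi, hWmin⟩ := exists_min ρ hpos
  -- `R` kills `W`
  have hRW : ∀ r ∈ R, ∀ w ∈ W, ρ r w = 0 := by
    intro r hr w hw
    by_contra hne
    let U : Submodule ℂ V := LinearMap.range
      ((LinearMap.applyₗ (ρ r w)).comp ρ.toLinearMap : 𝓐 →ₗ[ℂ] V)
    have hUmem : ∀ v, v ∈ U ↔ ∃ a, ρ a (ρ r w) = v := by
      intro v
      simp [U, LinearMap.mem_range]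
    have hU0 : U ≠ ⊥ := by
      intro h
      have : ρ r w ∈ U := (hUmem _).2 ⟨1, by simp⟩
      rw [h, Submodule.mem_bot] at this
      exact hne this
    have hUW : U ≤ W := by
      intro v hv
      obtain ⟨a, rfl⟩ := (hUmem v).1 hv
      exact hWi _ _ (hWi _ _ hw)
    have hUi : ∀ a, ∀ v ∈ U, ρ a v ∈ U := by
      intro a v hv
      obtain ⟨b, rfl⟩ := (hUmem v).1 hv
      exact (hUmem _).2 ⟨a * b, by rw [map_mul, Module.End.mul_apply]⟩
    have hUeq := hWmin U hU0 hUW hUi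
    have hwU : w ∈ U := by rw [hUeq]; exact hw
    obtain ⟨a, ha⟩ := (hUmem w).1 hwU
    have ha2 : ρ (a * r) w = w := by rw [map_mul, Module.End.mul_apply]; exact ha
    obtain ⟨k, hk⟩ := hnil (a * r) (hR a r hr)
    have hpow : ∀ j : ℕ, ((ρ (a * r)) ^ j) w = w := by
      intro j
      induction j with
      | zero => simp
      | succ j ihj => rw [pow_succ, Module.End.mul_apply, ha2, ihj]
    have hw0 : w = 0 := by
      have := hpow k
      rw [hk] at this
      simpa using this.symm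
    exact hne (by rw [hw0, map_zero])
  -- elements central modulo `R` are scalars on `W`
  have hscal : ∀ z : 𝓐, (∀ a, z * a - a * z ∈ R) → ∃ c : ℂ, ∀ w ∈ W, ρ z w = c • w := by
    intro z hz
    have hcomm : ∀ a, ∀ w ∈ W, ρ z (ρ a w) = ρ a (ρ z w) := by
      intro a w hw
      have h := hRW _ (hz a) w hw
      rw [map_sub, map_mul, map_mul, LinearMap.sub_apply, Module.End.mul_apply,
        Module.End.mul_apply, sub_eq_zero] at h
      exact h
    let f : End ℂ W := (ρ z).restrict (hWi z)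
    have : Nontrivial W := Submodule.nontrivial_iff_ne_bot.2 hW0
    obtain ⟨c, hc⟩ := Module.End.exists_eigenvalue f
    obtain ⟨v, hv⟩ := hc.exists_hasEigenvector
    let E : Submodule ℂ V :=
      { carrier := {w | w ∈ W ∧ ρ z w = c • w}
        add_mem' := fun {x y} hx hy => ⟨W.add_mem hx.1 hy.1, by
          rw [map_add, hx.2, hy.2, smul_add]⟩
        zero_mem' := ⟨W.zero_mem, by simp⟩
        smul_mem' := fun t x hx => ⟨W.smul_mem t hx.1, by
          rw [map_smul, hx.2, smul_comm]⟩ }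
    have hE0 : E ≠ ⊥ := by
      intro h
      have hvE : (v : V) ∈ E := by
        refine ⟨v.2, ?_⟩
        have h1 := hv.apply_eq_smul
        have h2 := congrArg (Subtype.val) h1
        simpa [f] using h2
      rw [h, Submodule.mem_bot] at hvE
      exact hv.2 (Subtype.ext hvE)
    have hEi : ∀ a, ∀ w ∈ E, ρ a w ∈ E := by
      intro a w hw
      refine ⟨hWi a w hw.1, ?_⟩
      rw [hcomm a w hw.1, hw.2, map_smul]
    have hEeq := hWmin E hE0 (fun w hw => hw.1) hEi
    refine ⟨c, fun w hw => ?_⟩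
    rw [← hEeq] at hw
    exact hw.2
  -- `Y` agrees on `W` with an element of `B`
  have hagree : ∃ X ∈ B, ∀ w ∈ W, ρ Y w = ρ X w := by
    let S : Submodule ℂ 𝓐 :=
      { carrier := {y | ∃ X ∈ B, ∀ w ∈ W, ρ y w = ρ X w}
        add_mem' := by
          rintro x y ⟨X, hX, hx⟩ ⟨X', hX', hy⟩
          refine ⟨X + X', B.add_mem hX hX', fun w hw => ?_⟩
          rw [map_add, map_add, LinearMap.add_apply, LinearMap.add_apply, hx w hw, hy w hw]
        zero_mem' := ⟨0, B.zero_mem, fun w _ => rfl⟩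
        smul_mem' := by
          rintro t x ⟨X, hX, hx⟩
          refine ⟨t • X, B.smul_mem t hX, fun w hw => ?_⟩
          rw [map_smul, map_smul, LinearMap.smul_apply, LinearMap.smul_apply, hx w hw] }
    have hle : Submodule.span ℂ {y | ∃ z x, (∀ a, z * a - a * z ∈ R) ∧ x ∈ B ∧ y = z * x} ⊔ R
        ≤ S := by
      refine sup_le (Submodule.span_le.2 ?_) ?_
      · rintro y ⟨z, x, hz, hx, rfl⟩
        obtain ⟨c, hc⟩ := hscal z hz
        refine ⟨c • x, B.smul_mem c hx, fun w hw => ?_⟩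
        rw [map_mul, Module.End.mul_apply, hc _ (hWi x w hw), map_smul, LinearMap.smul_apply]
      · intro r hr
        refine ⟨0, B.zero_mem, fun w hw => ?_⟩
        rw [hRW r hr w hw, map_zero, LinearMap.zero_apply]
    exact hle hY
  obtain ⟨X1, hX1, hX1W⟩ := hagree
  -- the quotient
  have hWc : ∀ a, W ≤ W.comap (ρ a) := fun a w hw => hWi a w hw
  have hlt : finrank ℂ (V ⧸ W) < n := by
    have h1 := Submodule.finrank_quotient_add_finrank W
    have h2 : 0 < finrank ℂ W := by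
      rw [Nat.pos_iff_ne_zero]
      intro h
      exact hW0 (Submodule.finrank_eq_zero.1 h)
    omega
  have hsurjY : Function.Surjective (ρ Y) := LinearMap.surjective_of_injective hinj
  have hquoinj : Function.Injective (quo ρ W hWc Y) := by
    apply LinearMap.injective_iff_surjective.2
    intro x
    obtain ⟨v, rfl⟩ := Submodule.Quotient.mk_surjective W x
    obtain ⟨u, rfl⟩ := hsurjY v
    exact ⟨Submodule.Quotient.mk u, quo_mk ρ W hWc Y u⟩
  have hquonil : ∀ r ∈ R, IsNilpotent (quo ρ W hWc r) := by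
    intro r hr
    obtain ⟨k, hk⟩ := hnil r hr
    refine ⟨k, ?_⟩
    rw [← map_pow]
    apply LinearMap.ext; intro x
    obtain ⟨v, rfl⟩ := Submodule.Quotient.mk_surjective W x
    rw [quo_mk, map_pow, hk]
    simp
  obtain ⟨X2, hX2, hX2q⟩ := ih _ hlt (V ⧸ W) (quo ρ W hWc) rfl hquonil hquoinj
  -- restricted maps
  let A1 : End ℂ W := (ρ X1).restrict (hWi X1)
  let A2 : End ℂ W := (ρ X2).restrict (hWi X2)
  have hA1 : Function.Injective A1 := by
    intro x y hxy
    have h1 : ρ X1 (x : V) = ρ X1 (y : V) := congrArg Subtype.val hxy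
    rw [← hX1W x x.2, ← hX1W y y.2] at h1
    exact Subtype.ext (hinj h1)
  have hfin := (finite_bad_left A1 A2 hA1).union
    (finite_bad_right (quo ρ W hWc X1) (quo ρ W hWc X2) hX2q)
  obtain ⟨t, ht⟩ := hfin.exists_notMem
  have ht1 : Function.Injective (A1 + t • A2) := by
    by_contra h
    exact ht (Or.inl h)
  have ht2 : Function.Injective (quo ρ W hWc X1 + t • quo ρ W hWc X2) := by
    by_contra h
    exact ht (Or.inr h)
  refine ⟨X1 + t • X2, B.add_mem hX1 (B.smul_mem t hX2), ?_⟩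
  rw [injective_iff_map_eq_zero]
  intro v hv
  have hvW : v ∈ W := by
    rw [← Submodule.Quotient.mk_eq_zero]
    apply ht2
    rw [map_zero, LinearMap.add_apply, LinearMap.smul_apply, quo_mk, quo_mk,
      ← Submodule.Quotient.mk_smul, ← Submodule.Quotient.mk_add]
    rw [map_add, map_smul, LinearMap.add_apply, LinearMap.smul_apply] at hv
    rw [hv, Submodule.Quotient.mk_zero]
  have h3 : (A1 + t • A2) ⟨v, hvW⟩ = 0 := by
    apply Subtype.ext
    rw [map_add, map_smul, LinearMap.add_apply, LinearMap.smul_apply] at hv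
    simpa [A1, A2] using hv
  have h4 : (⟨v, hvW⟩ : W) = 0 := ht1 (by rw [h3, map_zero])
  exact congrArg Subtype.val h4

end F1a

theorem t_F1a : S_F1a := by
  intro 𝓐 _ _ R B hR V _ _ _ ρ hnil Y hY hinj
  exact F1a.main R B hR Y hY _ V ρ rfl hnil hinj

end Pool.Agent.Helper69K1.GrS
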