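import Pool.Agent.Helper69K1.GrS.Stm
import Pool.Agent.Helper69K1.Gr.M

/-!
# Piece F2a: the semisimple quotient is a product of full matrix algebras (helper64)
-/

set_option autoImplicit false
set_option maxHeartbeats 4000000
set_option synthInstance.maxHeartbeats 400000

namespace Pool.Agent.Helper69K1.GrS

open Module Pool.Agent.Helper69K1 Pool.Agent.Helper69K1.Gr Pool.Agent.Helper69K1.GrB

namespace PieceF2a

variable {n : Type} [Fintype n] [DecidableEq n]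

theorem mat_nil_of_trace (X : Matrix n n ℂ) (h : ∀ m : ℕ, 0 < m → (X ^ m).trace = 0) :
    IsNilpotent X := by
  have h1 : IsNilpotent (Matrix.toLin' X) := by
    apply PieceM.nil_of_trace
    intro m hm
    rw [← Matrix.toLin'_pow, Matrix.trace_toLin'_eq]
    exact h m hm
  obtain ⟨m, hm⟩ := h1
  refine ⟨m, ?_⟩
  rw [← Matrix.toLin'_pow] at hm
  exact (LinearEquiv.map_eq_zero_iff _).1 hm

theorem trace_of_nil (X : Matrix n n ℂ) (h : IsNilpotent X) : X.trace = 0 :=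
  (Matrix.isNilpotent_trace_of_isNilpotent h).eq_zero

variable (A : Subalgebra ℂ (Matrix n n ℂ))

/-- the radical of the trace form, as an ideal -/
def JG : Ideal A where
  carrier := {a | (a : Matrix n n ℂ) ∈ radG A}
  add_mem' := fun {a b} ha hb => (radG A).add_mem ha hb
  zero_mem' := (radG A).zero_mem
  smul_mem' := fun c a ha => ⟨(c • a).2, fun b hb => by
    rw [smul_eq_mul]
    push_cast
    rw [mul_assoc, Matrix.trace_mul_comm, mul_assoc]
    exact ha.2 _ (A.mul_mem hb c.2)⟩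

theorem mem_JG (a : A) : a ∈ JG A ↔ (a : Matrix n n ℂ) ∈ radG A := Iff.rfl

theorem JG_two : (JG A).IsTwoSided :=
  ⟨fun {a} b ha => ⟨(a * b).2, fun c hc => by
    push_cast
    rw [mul_assoc]
    exact ha.2 _ (A.mul_mem b.2 hc)⟩⟩

/-- an element with a power in the radical has trace zero -/
theorem trace_of_pow (a : A) (N : ℕ) (h : a ^ N ∈ JG A) : (a : Matrix n n ℂ).trace = 0 := by
  have h1 : IsNilpotent ((a : Matrix n n ℂ) ^ (N + 1)) := by
    apply mat_nil_of_trace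
    intro m hm
    obtain ⟨m, rfl⟩ := Nat.exists_eq_succ_of_ne_zero hm.ne'
    have h2 := h.2 ((a : Matrix n n ℂ) ^ (m + 1 + N * m)) (A.pow_mem a.2 _)
    push_cast at h2
    rw [← pow_add] at h2
    have h3 : (N + 1) * (m + 1) = N + (m + 1 + N * m) := by ring
    rw [← pow_mul, Nat.succ_eq_add_one, h3]
    exact h2
  obtain ⟨K, hK⟩ := h1
  exact trace_of_nil _ ⟨(N + 1) * K, by rw [pow_mul]; exact hK⟩

theorem ss_of (S : Type) [Ring S] [Algebra ℂ S] [FiniteDimensional ℂ S]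
    (h : ∀ x : S, (∀ b, IsNilpotent (x * b)) → x = 0) : IsSemisimpleRing S := by
  have hart : IsArtinianRing S := IsArtinianRing.of_finite ℂ S
  obtain ⟨N, hN⟩ := (inferInstance : IsSemiprimaryRing S).isNilpotent
  rw [IsArtinianRing.isSemisimpleRing_iff_jacobson, eq_bot_iff]
  intro x hx
  rw [Submodule.mem_bot]
  refine h x fun b => ⟨N, ?_⟩
  have h1 : x * b ∈ Ring.jacobson S := Ideal.mul_mem_right _ _ hx
  have h2 := Ideal.pow_mem_pow h1 N
  rw [hN] at h2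
  exact h2

theorem fin_of (S : Type) [Ring S] [Algebra ℂ S] [FiniteDimensional ℂ S]
    (q : A →ₐ[ℂ] S) (hqs : Function.Surjective q)
    (hq0 : ∀ a : A, q a = 0 ↔ (a : Matrix n n ℂ) ∈ radG A) :
    ∃ (m : ℕ) (d : Fin m → ℕ) (p : ∀ i, A →ₐ[ℂ] Matrix (Fin (d i)) (Fin (d i)) ℂ),
    (∀ i, 0 < d i) ∧ (∀ a : A, (∀ i, p i a = 0) ↔ (a : Matrix n n ℂ) ∈ radG A) ∧
    ∀ c : ∀ i, Matrix (Fin (d i)) (Fin (d i)) ℂ, ∃ a, ∀ i, p i a = c i := by
  have hss : IsSemisimpleRing S := by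
    refine ss_of _ fun x hx => ?_
    obtain ⟨a, rfl⟩ := hqs x
    rw [hq0]
    refine ⟨a.2, fun b hb => ?_⟩
    obtain ⟨N, hN⟩ := hx (q ⟨b, hb⟩)
    have e1 : q (a * ⟨b, hb⟩) = q a * q ⟨b, hb⟩ := map_mul q a ⟨b, hb⟩
    have e2 : q ((a * ⟨b, hb⟩) ^ N) = q (a * ⟨b, hb⟩) ^ N := map_pow q (a * ⟨b, hb⟩) N
    have e3 : q ((a * ⟨b, hb⟩) ^ N) = 0 := by
      rw [e2, e1]
      exact hN
    have e4 := trace_of_pow A (a * ⟨b, hb⟩) N ((hq0 _).1 e3)
    have e5 : ((a * ⟨b, hb⟩ : A) : Matrix n n ℂ) = (a : Matrix n n ℂ) * b :=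
      Subalgebra.coe_mul A a ⟨b, hb⟩
    rw [e5] at e4
    exact e4
  obtain ⟨m, d, hd, ⟨e⟩⟩ := IsSemisimpleRing.exists_algEquiv_pi_matrix_of_isAlgClosed ℂ S
  refine ⟨m, d, fun i => (Pi.evalAlgHom ℂ _ i).comp (e.toAlgHom.comp q),
    fun i => Nat.pos_of_ne_zero (hd i).out, fun a => ?_, fun c => ?_⟩
  · rw [← hq0]
    constructor
    · intro h
      have h1 : e (q a) = 0 := funext h
      rwa [map_eq_zero_iff e e.injective] at h1
    · intro h i
      show e (q a) i = 0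
      rw [h, map_zero]
      rfl
  · obtain ⟨a, ha⟩ := hqs (e.symm c)
    refine ⟨a, fun i => ?_⟩
    show e (q a) i = c i
    rw [ha, AlgEquiv.apply_symm_apply]

end PieceF2a

open PieceF2a in
theorem t_F2a : S_F2a := by
  intro n _ _ A
  have := JG_two A
  have hqs : Function.Surjective (Ideal.Quotient.mkₐ ℂ (JG A)) :=
    Ideal.Quotient.mkₐ_surjective ℂ _
  have hfd : FiniteDimensional ℂ (A ⧸ JG A) :=
    Module.Finite.of_surjective (Ideal.Quotient.mkₐ ℂ (JG A)).toLinearMap hqs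
  refine fin_of A (A ⧸ JG A) (Ideal.Quotient.mkₐ ℂ (JG A)) hqs fun a => ?_
  rw [Ideal.Quotient.mkₐ_eq_mk, Ideal.Quotient.eq_zero_iff_mem, mem_JG]

end Pool.Agent.Helper69K1.GrS
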