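import Pool.Agent.Helper69K1.GrS.Stm

/-!
# Piece GRS-F2b (helper28): every simple quotient is a quotient of a diagonal block
-/

set_option autoImplicit false

namespace Pool.Agent.Helper69K1.GrS

open Module Pool.Agent.Helper69K1 Pool.Agent.Helper69K1.Gr Pool.Agent.Helper69K1.GrB

namespace F2b

theorem block_mul {n : Type} [Fintype n] [DecidableEq n] (g : n → ℕ) (l : ℕ)
    (M N : Matrix n n ℂ) (hM : M.BlockTriangular g) (hN : N.BlockTriangular g) :
    (M * N).toSquareBlock g l = M.toSquareBlock g l * N.toSquareBlock g l := by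
  ext ⟨i, hi⟩ ⟨j, hj⟩
  simp only [Matrix.toSquareBlock_def, Matrix.of_apply, Matrix.mul_apply]
  have h1 : ∀ k : n, ¬ g k = l → M i k * N k j = 0 := by
    intro k hk
    rcases lt_or_gt_of_ne hk with h | h
    · rw [hM (show g k < g i by rw [hi]; exact h), zero_mul]
    · rw [hN (show g j < g k by rw [hj]; exact h), mul_zero]
  rw [← Fintype.sum_subtype_add_sum_subtype (fun k => g k = l) (fun k => M i k * N k j)]
  rw [Finset.sum_eq_zero (s := (Finset.univ : Finset {k // ¬ g k = l}))
    (fun k _ => h1 k.1 k.2), add_zero]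

theorem simple_one (d : ℕ) (x : Matrix (Fin d) (Fin d) ℂ) (hx : x ≠ 0) :
    ∃ u v : Fin d → Matrix (Fin d) (Fin d) ℂ, ∑ i, u i * x * v i = 1 := by
  obtain ⟨i0, j0, h0⟩ : ∃ i0 j0, x i0 j0 ≠ 0 := by
    by_contra h
    push Not at h
    exact hx (by ext i j; exact h i j)
  refine ⟨fun i => Matrix.single i i0 (x i0 j0)⁻¹, fun i => Matrix.single j0 i 1, ?_⟩
  have h1 : ∀ i : Fin d, (Matrix.single i i0 (x i0 j0)⁻¹ : Matrix (Fin d) (Fin d) ℂ) * x *
      (Matrix.single j0 i (1 : ℂ) : Matrix (Fin d) (Fin d) ℂ) =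
      (Matrix.single i i (1 : ℂ) : Matrix (Fin d) (Fin d) ℂ) := by
    intro i
    ext a b
    rw [Matrix.mul_apply, Finset.sum_eq_single j0]
    · rw [Matrix.mul_apply, Finset.sum_eq_single i0]
      · by_cases ha : i = a
        · subst ha
          by_cases hb : i = b
          · subst hb
            simp [h0]
          · simp [Matrix.single_apply, hb]
        · simp [Matrix.single_apply, ha]
      · intro k _ hk
        simp [Matrix.single_apply, Ne.symm hk]
      · intro h
        exact absurd (Finset.mem_univ _) h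
    · intro k _ hk
      simp [Matrix.single_apply, Ne.symm hk]
    · intro h
      exact absurd (Finset.mem_univ _) h
  rw [Finset.sum_congr rfl (fun i _ => h1 i)]
  ext a b
  rw [Matrix.sum_apply]
  by_cases hab : a = b
  · subst hab
    rw [Finset.sum_eq_single a]
    · simp
    · intro k _ hk
      simp [Matrix.single_apply, hk]
    · intro h
      exact absurd (Finset.mem_univ _) h
  · rw [Matrix.one_apply_ne hab]
    apply Finset.sum_eq_zero
    intro k _
    rw [Matrix.single_apply, if_neg]
    rintro ⟨h2, h3⟩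
    exact hab (h2.symm.trans h3)

end F2b

theorem t_F2b : S_F2b := by
  intro n _ _ A P hP g hA d p hd hp hrad
  classical
  have hPP : P⁻¹ * P = 1 := Matrix.nonsing_inv_mul P (isUnit_iff_ne_zero.mpr hP)
  have hPP' : P * P⁻¹ = 1 := Matrix.mul_nonsing_inv P (isUnit_iff_ne_zero.mpr hP)
  by_contra hcon
  push Not at hcon
  have hmul : ∀ a b : Matrix n n ℂ, P * (a * b) * P⁻¹ = (P * a * P⁻¹) * (P * b * P⁻¹) := by
    intro a b
    calc P * (a * b) * P⁻¹ = P * a * 1 * b * P⁻¹ := by simp [Matrix.mul_assoc]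
      _ = P * a * (P⁻¹ * P) * b * P⁻¹ := by rw [hPP]
      _ = (P * a * P⁻¹) * (P * b * P⁻¹) := by simp only [Matrix.mul_assoc]
  have hbl : ∀ (l : ℕ) (a b : A), (P * ((a * b : A) : Matrix n n ℂ) * P⁻¹).toSquareBlock g l =
      (P * (a : Matrix n n ℂ) * P⁻¹).toSquareBlock g l *
        (P * (b : Matrix n n ℂ) * P⁻¹).toSquareBlock g l := by
    intro l a b
    rw [Subalgebra.coe_mul, hmul]
    exact F2b.block_mul g l _ _ (hA _ a.2) (hA _ b.2)
  have key : ∀ l : ℕ, ∃ e : A,
      (P * (e : Matrix n n ℂ) * P⁻¹).toSquareBlock g l = 0 ∧ p e = 1 := by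
    intro l
    obtain ⟨a, ha0, ha1⟩ := hcon l
    obtain ⟨u, v, huv⟩ := F2b.simple_one d (p a) ha1
    choose u' hu' using fun i => hp (u i)
    choose v' hv' using fun i => hp (v i)
    refine ⟨∑ i, u' i * a * v' i, ?_, ?_⟩
    · refine Finset.sum_induction (fun i => u' i * a * v' i)
        (fun e : A => (P * (e : Matrix n n ℂ) * P⁻¹).toSquareBlock g l = 0) ?_ ?_ ?_
      · intro e f he hf
        have h1 : P * ((e + f : A) : Matrix n n ℂ) * P⁻¹ =
            P * (e : Matrix n n ℂ) * P⁻¹ + P * (f : Matrix n n ℂ) * P⁻¹ := by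
          rw [Subalgebra.coe_add, Matrix.mul_add, Matrix.add_mul]
        rw [h1]
        ext i j
        have h2 := congrFun (congrFun he i) j
        have h3 := congrFun (congrFun hf i) j
        simp only [Matrix.toSquareBlock_def, Matrix.of_apply, Matrix.zero_apply] at h2 h3
        simp only [Matrix.toSquareBlock_def, Matrix.of_apply, Matrix.zero_apply,
          Matrix.add_apply]
        rw [h2, h3, add_zero]
      · rw [Subalgebra.coe_zero, Matrix.mul_zero, Matrix.zero_mul]
        rfl
      · intro i _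
        rw [hbl, hbl, ha0, Matrix.mul_zero, Matrix.zero_mul]
    · rw [map_sum, ← huv]
      refine Finset.sum_congr rfl fun i _ => ?_
      rw [map_mul, map_mul, hu', hv']
  choose e he1 he2 using key
  have hL : ∀ L : List ℕ, p (L.map e).prod = 1 ∧
      ∀ l ∈ L, (P * (((L.map e).prod : A) : Matrix n n ℂ) * P⁻¹).toSquareBlock g l = 0 := by
    intro L
    induction L with
    | nil => exact ⟨by simp, by simp⟩
    | cons a L ih =>
      refine ⟨?_, ?_⟩
      · rw [List.map_cons, List.prod_cons, map_mul, he2, ih.1, one_mul]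
      · intro l hl
        rw [List.map_cons, List.prod_cons, hbl]
        rcases List.mem_cons.mp hl with h | h
        · subst h
          rw [he1, Matrix.zero_mul]
        · rw [ih.2 l h, Matrix.mul_zero]
  obtain ⟨h1, h2⟩ := hL (Finset.univ.image g).toList
  set E : A := ((Finset.univ.image g).toList.map e).prod with hE
  have h3 : ∀ i j : n, g i = g j → (P * (E : Matrix n n ℂ) * P⁻¹) i j = 0 := by
    intro i j hij
    have h4 := h2 (g i) (by simp)
    have h5 := congrFun (congrFun h4 ⟨i, rfl⟩) ⟨j, hij.symm⟩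
    simpa [Matrix.toSquareBlock_def] using h5
  have h4 : (E : Matrix n n ℂ) ∈ radG A := by
    refine ⟨E.2, fun b hb => ?_⟩
    have h5 : ((E : Matrix n n ℂ) * b).trace =
        ((P * (E : Matrix n n ℂ) * P⁻¹) * (P * b * P⁻¹)).trace := by
      rw [← hmul, Matrix.trace_mul_comm (P * ((E : Matrix n n ℂ) * b)) P⁻¹, ← Matrix.mul_assoc, hPP,
        Matrix.one_mul]
    rw [h5, Matrix.trace]
    apply Finset.sum_eq_zero
    intro i _
    rw [Matrix.diag_apply, Matrix.mul_apply]
    apply Finset.sum_eq_zero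
    intro k _
    rcases lt_trichotomy (g k) (g i) with h | h | h
    · rw [hA _ E.2 h, zero_mul]
    · rw [h3 i k h.symm, zero_mul]
    · rw [hA _ hb h, mul_zero]
  have h5 := hrad E h4
  rw [h1] at h5
  have h6 := congrFun (congrFun h5 ⟨0, hd⟩) ⟨0, hd⟩
  simp at h6

end Pool.Agent.Helper69K1.GrS
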