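import Pool.Agent.Helper69K1.GrS.Stm

/-!
# Piece F2c: the complex enlarged space is closed
(helper61)
-/

set_option autoImplicit false

namespace Pool.Agent.Helper69K1.GrS

open Module Pool.Agent.Helper69K1 Pool.Agent.Helper69K1.Gr Pool.Agent.Helper69K1.GrB

namespace F2c

theorem map_iterComm {R S : Type} [Ring R] [Ring S] (f : R →+* S) (M : ℕ → R) :
    ∀ k, f (iterComm M k) = iterComm (fun i => f (M i)) k
  | 0 => rfl
  | k + 1 => by rw [iterComm, iterComm, map_sub, map_mul, map_mul, map_iterComm f M k]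

theorem iterComm_add {R : Type} [Ring R] (M : ℕ → R) (a : ℕ) :
    ∀ b, iterComm M (a + b) = iterComm (fun j => if j = 0 then iterComm M a else M (a + j)) b
  | 0 => by
      rw [add_zero]
      simp only [iterComm, if_true]
  | b + 1 => by
      rw [← add_assoc, iterComm, iterComm, iterComm_add M a b, if_neg (Nat.succ_ne_zero b),
        add_assoc]

theorem closed_mul {R : Type} [Ring R] {T : Set R} {k : ℕ}
    (h : ∀ M : ℕ → R, (∀ i, M i ∈ T) → iterComm M k ∈ T) (c : ℕ) :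
    ∀ M : ℕ → R, (∀ i, M i ∈ T) → iterComm M (k * c) ∈ T := by
  induction c with
  | zero => intro M hM; exact hM 0
  | succ c ih =>
    intro M hM
    rw [mul_add, mul_one, iterComm_add]
    apply h
    intro i
    by_cases hi : i = 0
    · simp only [hi, if_true]
      exact ih M hM
    · simp only [hi, if_false]
      exact hM _

variable {n : Type} [Fintype n] [DecidableEq n]

theorem block_mul {g : n → ℕ} {U V : Matrix n n ℂ} (hU : U.BlockTriangular g)
    (hV : V.BlockTriangular g) (l : ℕ) :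
    (U * V).toSquareBlock g l = U.toSquareBlock g l * V.toSquareBlock g l := by
  classical
  ext i j
  have h1 : ∑ a : {a // g a = l}, U i a * V a j =
      ∑ a ∈ Finset.univ.filter (fun a => g a = l), U i a * V a j :=
    (Finset.sum_subtype _ (fun x => by simp) (fun a => U i a * V a j)).symm
  have h2 : ((U * V).toSquareBlock g l) i j = ∑ a, U i a * V a j := by
    rw [← Matrix.mul_apply]
    rfl
  have h3 : (U.toSquareBlock g l * V.toSquareBlock g l) i j =
      ∑ a : {a // g a = l}, U i a * V a j := by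
    rw [Matrix.mul_apply]
    rfl
  rw [h2, h3, h1]
  symm
  apply Finset.sum_filter_of_ne
  intro a _ hne
  by_contra hgl
  apply hne
  have hi : g i = l := i.2
  have hj : g j = l := j.2
  rcases lt_or_gt_of_ne hgl with h | h
  · rw [hU (show g a < g i by rw [hi]; exact h), zero_mul]
  · rw [hV (show g j < g a by rw [hj]; exact h), mul_zero]

omit [Fintype n] [DecidableEq n] in
theorem block_sub (g : n → ℕ) (U V : Matrix n n ℂ) (l : ℕ) :
    (U - V).toSquareBlock g l = U.toSquareBlock g l - V.toSquareBlock g l := rfl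

theorem conj_mul {P : Matrix n n ℂ} (hP : P.det ≠ 0) (U V : Matrix n n ℂ) :
    P * (U * V) * P⁻¹ = (P * U * P⁻¹) * (P * V * P⁻¹) := by
  have h1 : P⁻¹ * P = 1 := Matrix.nonsing_inv_mul P (isUnit_iff_ne_zero.2 hP)
  calc P * (U * V) * P⁻¹ = P * U * 1 * V * P⁻¹ := by rw [mul_one, ← mul_assoc P U V]
    _ = P * U * (P⁻¹ * P) * V * P⁻¹ := by rw [h1]
    _ = (P * U * P⁻¹) * (P * V * P⁻¹) := by simp only [mul_assoc]

theorem conj_sub (P U V : Matrix n n ℂ) :
    P * (U - V) * P⁻¹ = P * U * P⁻¹ - P * V * P⁻¹ := by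
  rw [mul_sub, sub_mul]

theorem adjoin_UT {P : Matrix n n ℂ} (hP : P.det ≠ 0) {g : n → ℕ}
    {B : Submodule ℂ (Matrix n n ℂ)}
    (hB : ∀ X ∈ B, (P * X * P⁻¹).BlockTriangular g) {b : Matrix n n ℂ}
    (hb : b ∈ Algebra.adjoin ℂ (B : Set (Matrix n n ℂ))) :
    (P * b * P⁻¹).BlockTriangular g := by
  induction hb using Algebra.adjoin_induction with
  | mem x hx => exact hB x hx
  | algebraMap r =>
    have h2 : P * P⁻¹ = 1 := Matrix.mul_nonsing_inv P (isUnit_iff_ne_zero.2 hP)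
    rw [Algebra.algebraMap_eq_smul_one, mul_smul_comm, smul_mul_assoc, mul_one, h2]
    intro i j hij
    rw [Matrix.smul_apply, Matrix.one_apply, if_neg (by rintro rfl; exact lt_irrefl _ hij), smul_zero]
  | add x y _ _ hx hy =>
    rw [mul_add, add_mul]
    exact hx.add hy
  | mul x y _ _ hx hy =>
    rw [conj_mul hP]
    exact hx.mul hy

theorem iter_mem {A : Subalgebra ℂ (Matrix n n ℂ)} {M : ℕ → Matrix n n ℂ}
    (hM : ∀ i, M i ∈ A) : ∀ k, iterComm M k ∈ A
  | 0 => hM 0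
  | k + 1 => by
      rw [iterComm]
      exact Subalgebra.sub_mem _ (Subalgebra.mul_mem _ (hM _) (iter_mem hM k))
        (Subalgebra.mul_mem _ (iter_mem hM k) (hM _))

theorem iter_block {P : Matrix n n ℂ} (hP : P.det ≠ 0) {g : n → ℕ}
    {A : Subalgebra ℂ (Matrix n n ℂ)}
    (hA : ∀ X ∈ A, (P * X * P⁻¹).BlockTriangular g) {M : ℕ → Matrix n n ℂ}
    (hM : ∀ i, M i ∈ A) (l : ℕ) : ∀ k, (P * iterComm M k * P⁻¹).toSquareBlock g l =
      iterComm (fun i => (P * M i * P⁻¹).toSquareBlock g l) k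
  | 0 => rfl
  | k + 1 => by
      rw [iterComm, iterComm, conj_sub, block_sub, conj_mul hP, conj_mul hP,
        block_mul (hA _ (hM _)) (hA _ (iter_mem hM k)),
        block_mul (hA _ (iter_mem hM k)) (hA _ (hM _)), iter_block hP hA hM l k]

end F2c

open F2c in
/-- piece F2c -/
theorem t_F2c (ha : S_F2a) (hb : S_F2b) : S_F2c := by
  intro n _ _ B P hP g hB hcl
  set A := Algebra.adjoin ℂ (B : Set (Matrix n n ℂ)) with hA
  have hAB : ∀ X ∈ B, X ∈ A := fun X hX => Algebra.subset_adjoin hX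
  have hUT : ∀ X ∈ A, (P * X * P⁻¹).BlockTriangular g := fun X hX => adjoin_UT hP hB hX
  obtain ⟨m, d, p, hd, hker, hsur⟩ := ha n A
  have hps : ∀ i, Function.Surjective (p i) := by
    intro i c
    obtain ⟨a, h⟩ := hsur (Function.update 0 i c)
    exact ⟨a, by rw [h i, Function.update_self]⟩
  have hlev : ∀ i, ∃ l, ∀ a : A, (P * (a : Matrix n n ℂ) * P⁻¹).toSquareBlock g l = 0 → p i a = 0 :=
    fun i => hb n A P hP g hUT (d i) (p i) (hd i) (hps i) fun a hr => (hker a).2 hr i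
  choose lv hlv using hlev
  choose kk hkk hcl using hcl
  -- the spaces of the values
  let T : ∀ i, Set (Matrix (Fin (d i)) (Fin (d i)) ℂ) := fun i =>
    {Z | ∃ X : A, (X : Matrix n n ℂ) ∈ B ∧ p i X = Z}
  have hT1 : ∀ i, ∀ M : ℕ → Matrix (Fin (d i)) (Fin (d i)) ℂ, (∀ j, M j ∈ T i) →
      iterComm M (kk (lv i)) ∈ T i := by
    intro i M hM
    choose X hXB hXp using hM
    obtain ⟨Y, hYB, hY⟩ := hcl (lv i) (fun j => (X j : Matrix n n ℂ)) hXB
    refine ⟨⟨Y, hAB Y hYB⟩, hYB, ?_⟩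
    have h1 : p i (⟨Y, hAB Y hYB⟩ - iterComm X (kk (lv i))) = 0 := by
      apply hlv i
      have h2 : ((⟨Y, hAB Y hYB⟩ - iterComm X (kk (lv i)) : A) : Matrix n n ℂ) =
          Y - iterComm (fun j => (X j : Matrix n n ℂ)) (kk (lv i)) := by
        have h3 := map_iterComm (A.val : A →+* Matrix n n ℂ) X (kk (lv i))
        rw [Subalgebra.coe_sub]
        congr 1
      rw [h2, conj_sub, block_sub, hY, iter_block hP hUT (fun j => (X j).2), sub_self]
    rw [map_sub, sub_eq_zero] at h1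
    rw [h1]
    have h3 := map_iterComm (p i).toRingHom X (kk (lv i))
    have h4 : (fun j => (p i).toRingHom (X j)) = M := funext hXp
    rw [h4] at h3
    exact h3
  have hTadd : ∀ i, ∀ U ∈ T i, ∀ V ∈ T i, U + V ∈ T i := by
    rintro i _ ⟨X, hX, rfl⟩ _ ⟨Y, hY, rfl⟩
    exact ⟨X + Y, B.add_mem hX hY, map_add _ _ _⟩
  have hadd : ∀ x y : Matrix n n ℂ, (∃ hY : x ∈ A, ∀ i, p i ⟨x, hY⟩ ∈ T i) →
      (∃ hY : y ∈ A, ∀ i, p i ⟨y, hY⟩ ∈ T i) → ∃ hY : x + y ∈ A, ∀ i, p i ⟨x + y, hY⟩ ∈ T i := by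
    rintro x y ⟨hx, hx'⟩ ⟨hy, hy'⟩
    refine ⟨A.add_mem hx hy, fun i => ?_⟩
    have h1 : (⟨x + y, A.add_mem hx hy⟩ : A) = ⟨x, hx⟩ + ⟨y, hy⟩ := rfl
    rw [h1, map_add]
    exact hTadd i _ (hx' i) _ (hy' i)
  have hhG : ∀ Y ∈ hG B, ∃ hY : Y ∈ A, ∀ i, p i ⟨Y, hY⟩ ∈ T i := by
    intro Y hY
    obtain ⟨y1, hy1, y2, hy2, rfl⟩ := Submodule.mem_sup.1 hY
    apply hadd
    · refine Submodule.mul_induction_on hy1 ?_ hadd
      intro z hz x hx
      refine ⟨A.mul_mem hz.1 (hAB x hx), fun i => ?_⟩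
      have h1 : (⟨z * x, A.mul_mem hz.1 (hAB x hx)⟩ : A) = ⟨z, hz.1⟩ * ⟨x, hAB x hx⟩ := rfl
      have hcomm : ∀ c : Matrix (Fin (d i)) (Fin (d i)) ℂ, Commute c (p i ⟨z, hz.1⟩) := by
        intro c
        obtain ⟨a, rfl⟩ := hps i c
        have h2 : (((⟨z, hz.1⟩ : A) * a - a * ⟨z, hz.1⟩ : A) : Matrix n n ℂ) ∈ radG A := hz.2 a a.2
        have h3 := (hker _).2 h2 i
        rw [map_sub, map_mul, map_mul, sub_eq_zero] at h3
        exact h3.symm
      obtain ⟨c, hc⟩ := Matrix.mem_range_scalar_of_commute_single fun i' j' _ => hcomm _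
      rw [h1, map_mul, ← hc]
      refine ⟨c • ⟨x, hAB x hx⟩, B.smul_mem c hx, ?_⟩
      rw [map_smul, Matrix.scalar_apply, ← Matrix.smul_eq_diagonal_mul]
    · refine ⟨hy2.1, fun i => ⟨0, B.zero_mem, ?_⟩⟩
      rw [map_zero]
      exact ((hker ⟨y2, hy2.1⟩).2 hy2 i).symm
  refine ⟨∏ i, kk (lv i), Finset.one_le_prod' fun i _ => hkk _, fun M hM => ?_⟩
  choose hMA hMT using fun i => hhG (M i) (hM i)
  have hCA : ∀ k, iterComm M k = ((iterComm (fun j => (⟨M j, hMA j⟩ : A)) k : A) : Matrix n n ℂ) :=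
    fun k => (map_iterComm (A.val : A →+* Matrix n n ℂ) (fun j => (⟨M j, hMA j⟩ : A)) k).symm
  set K := ∏ i, kk (lv i) with hK
  set C : A := iterComm (fun j => (⟨M j, hMA j⟩ : A)) K with hC
  have hpC : ∀ i, p i C ∈ T i := by
    intro i
    obtain ⟨c, hc⟩ := Finset.dvd_prod_of_mem (fun i => kk (lv i)) (Finset.mem_univ i)
    have h1 := closed_mul (hT1 i) c (fun j => p i ⟨M j, hMA j⟩) (fun j => hMT j i)
    have h2 := map_iterComm (p i).toRingHom (fun j => (⟨M j, hMA j⟩ : A)) K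
    have h3 : K = kk (lv i) * c := hc
    rw [← h3] at h1
    exact (congrArg (· ∈ T i) h2).mpr h1
  choose X hXB hXC using hpC
  choose e he using fun i => hsur (Function.update 0 i 1)
  have hez : ∀ i, (e i : Matrix n n ℂ) ∈ ztG A := by
    intro i
    refine ⟨(e i).2, fun a ha => ?_⟩
    have h1 : (((e i) * ⟨a, ha⟩ - ⟨a, ha⟩ * (e i) : A) : Matrix n n ℂ) ∈ radG A := by
      rw [← hker]
      intro j
      rw [map_sub, map_mul, map_mul, he i j]
      by_cases h : j = i
      · subst h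
        rw [Function.update_self, one_mul, mul_one, sub_self]
      · rw [Function.update_of_ne h]
        simp
    exact h1
  rw [hCA]
  show (C : Matrix n n ℂ) ∈ hG B
  have hr : ((C - ∑ i, e i * X i : A) : Matrix n n ℂ) ∈ radG A := by
    rw [← hker]
    intro j
    rw [map_sub, map_sum, Finset.sum_eq_single j]
    · rw [map_mul, he j j, Function.update_self, one_mul, hXC j, sub_self]
    · intro i _ hij
      rw [map_mul, he i j, Function.update_of_ne (Ne.symm hij)]
      simp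
    · intro h
      exact absurd (Finset.mem_univ j) h
  have hsum : (C : Matrix n n ℂ) = ∑ i, (e i : Matrix n n ℂ) * (X i : Matrix n n ℂ) +
      ((C - ∑ i, e i * X i : A) : Matrix n n ℂ) := by
    have h1 : C = ∑ i, e i * X i + (C - ∑ i, e i * X i) := by abel
    have h2 := congrArg (A.val : A → Matrix n n ℂ) h1
    rw [map_add, map_sum] at h2
    simpa using h2
  rw [hsum]
  exact Submodule.add_mem_sup (Submodule.sum_mem _ fun i _ => Submodule.mul_mem_mul (hez i) (hXB i)) hr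

end Pool.Agent.Helper69K1.GrS
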