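import Pool.Agent.Helper69K1.GrS.Stm

/-!
# Piece F2d: descent of the enlarged space from the complex to the rational numbers
(helper24)
-/

set_option autoImplicit false

namespace Pool.Agent.Helper69K1.GrS

open Module Pool.Agent.Helper69K1 Pool.Agent.Helper69K1.Gr Pool.Agent.Helper69K1.GrB

namespace F2d

variable {N : ℕ}

/-- rational matrices as complex ones -/
noncomputable abbrev up : Matrix (Fin N) (Fin N) ℚ →+* Matrix (Fin N) (Fin N) ℂ :=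
  (algebraMap ℚ ℂ).mapMatrix

theorem up_apply (X : Matrix (Fin N) (Fin N) ℚ) : up X = X.map (algebraMap ℚ ℂ) := rfl

theorem up_smul (q : ℚ) (X : Matrix (Fin N) (Fin N) ℚ) : up (q • X) = (algebraMap ℚ ℂ q) • up X := by
  ext i j
  simp [up]

/-- entrywise application of a rational linear functional -/
noncomputable abbrev dn (π : ℂ →ₗ[ℚ] ℚ) : Matrix (Fin N) (Fin N) ℂ →ₗ[ℚ] Matrix (Fin N) (Fin N) ℚ :=
  π.mapMatrix

theorem dn_apply (π : ℂ →ₗ[ℚ] ℚ) (Z : Matrix (Fin N) (Fin N) ℂ) (i j : Fin N) :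
    dn π Z i j = π (Z i j) := rfl

theorem pi_mul (π : ℂ →ₗ[ℚ] ℚ) (z : ℂ) (q : ℚ) : π (z * algebraMap ℚ ℂ q) = π z * q := by
  have h1 : z * algebraMap ℚ ℂ q = q • z := by
    rw [Algebra.smul_def, mul_comm]
  rw [h1, map_smul, smul_eq_mul, mul_comm]

theorem pi_mul' (π : ℂ →ₗ[ℚ] ℚ) (z : ℂ) (q : ℚ) : π (algebraMap ℚ ℂ q * z) = q * π z := by
  rw [mul_comm, pi_mul, mul_comm]

theorem dn_mul_up (π : ℂ →ₗ[ℚ] ℚ) (Z : Matrix (Fin N) (Fin N) ℂ) (X : Matrix (Fin N) (Fin N) ℚ) :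
    dn π (Z * up X) = dn π Z * X := by
  ext i j
  rw [dn_apply, Matrix.mul_apply, Matrix.mul_apply, map_sum]
  refine Finset.sum_congr rfl fun l _ => ?_
  exact pi_mul π _ _

theorem dn_up_mul (π : ℂ →ₗ[ℚ] ℚ) (Z : Matrix (Fin N) (Fin N) ℂ) (X : Matrix (Fin N) (Fin N) ℚ) :
    dn π (up X * Z) = X * dn π Z := by
  ext i j
  rw [dn_apply, Matrix.mul_apply, Matrix.mul_apply, map_sum]
  refine Finset.sum_congr rfl fun l _ => ?_
  exact pi_mul' π _ _

theorem dn_up (π : ℂ →ₗ[ℚ] ℚ) (X : Matrix (Fin N) (Fin N) ℚ) : dn π (up X) = π 1 • X := by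
  ext i j
  rw [dn_apply, Matrix.smul_apply, smul_eq_mul]
  have h := pi_mul π 1 (X i j)
  rw [one_mul] at h
  exact h

theorem dn_smul (π : ℂ →ₗ[ℚ] ℚ) (c : ℂ) (Z : Matrix (Fin N) (Fin N) ℂ) :
    dn π (c • Z) = dn (π ∘ₗ LinearMap.mulLeft ℚ c) Z := rfl

theorem trace_dn (π : ℂ →ₗ[ℚ] ℚ) (Z : Matrix (Fin N) (Fin N) ℂ) : (dn π Z).trace = π Z.trace := by
  rw [Matrix.trace, Matrix.trace, map_sum]
  rfl

theorem trace_up (X : Matrix (Fin N) (Fin N) ℚ) : (up X).trace = algebraMap ℚ ℂ X.trace := by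
  rw [Matrix.trace, Matrix.trace, map_sum]
  rfl

/-- descent for spans of rational spaces -/
theorem dn_cxs {B : Submodule ℚ (Matrix (Fin N) (Fin N) ℚ)} {Z : Matrix (Fin N) (Fin N) ℂ}
    (hZ : Z ∈ cxs B) : ∀ π : ℂ →ₗ[ℚ] ℚ, dn π Z ∈ B := by
  refine Submodule.span_induction (p := fun Z _ => ∀ π : ℂ →ₗ[ℚ] ℚ, dn π Z ∈ B) ?_ ?_ ?_ ?_ hZ
  · rintro _ ⟨X, hX, rfl⟩ π
    rw [← up_apply, dn_up]
    exact B.smul_mem _ hX
  · intro π
    rw [map_zero]
    exact B.zero_mem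
  · intro x y _ _ hx hy π
    rw [map_add]
    exact B.add_mem (hx π) (hy π)
  · intro c x _ hx π
    rw [dn_smul]
    exact hx _

theorem up_cxs {B : Submodule ℚ (Matrix (Fin N) (Fin N) ℚ)} {X : Matrix (Fin N) (Fin N) ℚ}
    (hX : X ∈ B) : up X ∈ cxs B := Submodule.subset_span ⟨X, hX, rfl⟩

variable (B : Submodule ℚ (Matrix (Fin N) (Fin N) ℚ))

/-- the rational algebra -/
abbrev AQ : Subalgebra ℚ (Matrix (Fin N) (Fin N) ℚ) :=
  Algebra.adjoin ℚ (B : Set (Matrix (Fin N) (Fin N) ℚ))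

/-- the complex algebra -/
abbrev AC : Subalgebra ℂ (Matrix (Fin N) (Fin N) ℂ) :=
  Algebra.adjoin ℂ (cxs B : Set (Matrix (Fin N) (Fin N) ℂ))

theorem up_alg (r : ℚ) : up (algebraMap ℚ (Matrix (Fin N) (Fin N) ℚ) r) =
    algebraMap ℂ (Matrix (Fin N) (Fin N) ℂ) (algebraMap ℚ ℂ r) := by
  rw [Algebra.algebraMap_eq_smul_one, up_smul, map_one, Algebra.algebraMap_eq_smul_one (R := ℂ)
    (A := Matrix (Fin N) (Fin N) ℂ)]

theorem up_AQ {a : Matrix (Fin N) (Fin N) ℚ} (ha : a ∈ AQ B) : up a ∈ AC B := by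
  induction ha using Algebra.adjoin_induction with
  | mem x hx => exact Algebra.subset_adjoin (up_cxs hx)
  | algebraMap r =>
    rw [up_alg]
    exact (AC B).algebraMap_mem _
  | add x y _ _ hx hy =>
    rw [map_add]
    exact (AC B).add_mem hx hy
  | mul x y _ _ hx hy =>
    rw [map_mul]
    exact (AC B).mul_mem hx hy

theorem AC_le {Z : Matrix (Fin N) (Fin N) ℂ} (hZ : Z ∈ AC B) :
    Z ∈ cxs (Subalgebra.toSubmodule (AQ B)) := by
  induction hZ using Algebra.adjoin_induction with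
  | mem x hx =>
    refine Submodule.span_mono ?_ hx
    rintro _ ⟨X, hX, rfl⟩
    exact ⟨X, Algebra.subset_adjoin hX, rfl⟩
  | algebraMap r =>
    rw [Algebra.algebraMap_eq_smul_one]
    refine Submodule.smul_mem _ _ (Submodule.subset_span ⟨1, (AQ B).one_mem, ?_⟩)
    rw [← up_apply, map_one]
  | add x y _ _ hx hy => exact Submodule.add_mem _ hx hy
  | mul x y _ _ hx hy =>
    have h1 : x * y ∈ cxs (Subalgebra.toSubmodule (AQ B)) * cxs (Subalgebra.toSubmodule (AQ B)) :=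
      Submodule.mul_mem_mul hx hy
    rw [cxs, Submodule.span_mul_span] at h1
    refine Submodule.span_mono ?_ h1
    rintro _ ⟨_, ⟨a, ha, rfl⟩, _, ⟨b, hb, rfl⟩, rfl⟩
    refine ⟨a * b, (AQ B).mul_mem ha hb, ?_⟩
    show _ * _ = _
    rw [← up_apply, ← up_apply, ← up_apply, map_mul]

theorem dn_AC {Z : Matrix (Fin N) (Fin N) ℂ} (hZ : Z ∈ AC B) (π : ℂ →ₗ[ℚ] ℚ) : dn π Z ∈ AQ B :=
  dn_cxs (AC_le B hZ) π

theorem dn_rad {Z : Matrix (Fin N) (Fin N) ℂ} (hZ : Z ∈ radG (AC B)) (π : ℂ →ₗ[ℚ] ℚ) :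
    dn π Z ∈ radG (AQ B) := by
  refine ⟨dn_AC B hZ.1 π, fun b hb => ?_⟩
  rw [← dn_mul_up, trace_dn, hZ.2 _ (up_AQ B hb), map_zero]

theorem up_rad {r : Matrix (Fin N) (Fin N) ℚ} (hr : r ∈ radG (AQ B)) : up r ∈ radG (AC B) := by
  refine ⟨up_AQ B hr.1, fun Z hZ => ?_⟩
  refine Submodule.span_induction (p := fun Z _ => (up r * Z).trace = 0) ?_ ?_ ?_ ?_ (AC_le B hZ)
  · rintro _ ⟨a, ha, rfl⟩
    rw [← up_apply, ← map_mul, trace_up, hr.2 a ha, map_zero]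
  · rw [mul_zero, Matrix.trace_zero]
  · intro x y _ _ hx hy
    rw [mul_add, Matrix.trace_add, hx, hy, add_zero]
  · intro c x _ hx
    rw [mul_smul_comm, Matrix.trace_smul, hx, smul_zero]

theorem dn_zt {Z : Matrix (Fin N) (Fin N) ℂ} (hZ : Z ∈ ztG (AC B)) (π : ℂ →ₗ[ℚ] ℚ) :
    dn π Z ∈ ztG (AQ B) := by
  refine ⟨dn_AC B hZ.1 π, fun a ha => ?_⟩
  have h1 := dn_rad B (hZ.2 _ (up_AQ B ha)) π
  rw [map_sub, dn_mul_up, dn_up_mul] at h1
  exact h1

theorem up_zt {z : Matrix (Fin N) (Fin N) ℚ} (hz : z ∈ ztG (AQ B)) : up z ∈ ztG (AC B) := by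
  refine ⟨up_AQ B hz.1, fun Z hZ => ?_⟩
  refine Submodule.span_induction (p := fun Z _ => up z * Z - Z * up z ∈ radG (AC B)) ?_ ?_ ?_ ?_
    (AC_le B hZ)
  · rintro _ ⟨a, ha, rfl⟩
    rw [← up_apply, ← map_mul, ← map_mul, ← map_sub]
    exact up_rad B (hz.2 a ha)
  · rw [mul_zero, zero_mul, sub_zero]
    exact Submodule.zero_mem _
  · intro x y _ _ hx hy
    have h1 : up z * (x + y) - (x + y) * up z = (up z * x - x * up z) + (up z * y - y * up z) := by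
      rw [mul_add, add_mul]; abel
    rw [h1]
    exact Submodule.add_mem _ hx hy
  · intro c x _ hx
    rw [mul_smul_comm, smul_mul_assoc, ← smul_sub]
    exact Submodule.smul_mem _ _ hx

theorem dn_mul {Z W : Matrix (Fin N) (Fin N) ℂ} (hZ : Z ∈ ztG (AC B)) (hW : W ∈ cxs B) :
    ∀ π : ℂ →ₗ[ℚ] ℚ, dn π (Z * W) ∈ ztG (AQ B) * B := by
  refine Submodule.span_induction
    (p := fun W _ => ∀ π : ℂ →ₗ[ℚ] ℚ, dn π (Z * W) ∈ ztG (AQ B) * B) ?_ ?_ ?_ ?_ hW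
  · rintro _ ⟨X, hX, rfl⟩ π
    rw [← up_apply, dn_mul_up]
    exact Submodule.mul_mem_mul (dn_zt B hZ π) hX
  · intro π
    rw [mul_zero, map_zero]
    exact Submodule.zero_mem _
  · intro x y _ _ hx hy π
    rw [mul_add, map_add]
    exact Submodule.add_mem _ (hx π) (hy π)
  · intro c x _ hx π
    rw [mul_smul_comm, dn_smul]
    exact hx _

theorem dn_hG {Y : Matrix (Fin N) (Fin N) ℂ} (hY : Y ∈ hG (cxs B)) (π : ℂ →ₗ[ℚ] ℚ) :
    dn π Y ∈ hG B := by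
  obtain ⟨Y1, h1, Y2, h2, rfl⟩ := Submodule.mem_sup.1 hY
  rw [map_add]
  refine Submodule.add_mem_sup ?_ (dn_rad B h2 π)
  refine Submodule.mul_induction_on h1 ?_ ?_
  · intro Z hZ W hW
    exact dn_mul B hZ hW π
  · intro x y hx hy
    rw [map_add]
    exact Submodule.add_mem _ hx hy

theorem up_hG {X : Matrix (Fin N) (Fin N) ℚ} (hX : X ∈ hG B) : up X ∈ hG (cxs B) := by
  obtain ⟨X1, h1, X2, h2, rfl⟩ := Submodule.mem_sup.1 hX
  rw [map_add]
  refine Submodule.add_mem_sup ?_ (up_rad B h2)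
  refine Submodule.mul_induction_on h1 ?_ ?_
  · intro z hz x hx
    rw [map_mul]
    exact Submodule.mul_mem_mul (up_zt B hz) (up_cxs hx)
  · intro x y hx hy
    rw [map_add]
    exact Submodule.add_mem _ hx hy

end F2d

open F2d in
/-- piece F2d -/
theorem t_F2d : S_F2d := by
  intro N B X
  constructor
  · intro h
    obtain ⟨π, hπ⟩ := LinearMap.exists_leftInverse_of_injective (Algebra.linearMap ℚ ℂ)
      (LinearMap.ker_eq_bot.2 (algebraMap ℚ ℂ).injective)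
    have hπ1 : π 1 = 1 := by
      have h1 := LinearMap.congr_fun hπ 1
      rw [LinearMap.comp_apply, Algebra.linearMap_apply, map_one] at h1
      exact h1
    have h2 := dn_hG B h π
    rw [← up_apply, dn_up, hπ1, one_smul] at h2
    exact h2
  · intro h
    exact up_hG B h

end Pool.Agent.Helper69K1.GrS
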