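import Pool.Agent.Helper69K1.GrS.Mach

/-!
# The test for hidden block triangular spaces with separately closed blocks
-/

set_option linter.unusedSectionVars false

namespace Pool.Agent.Helper69K1.GrS

open Module Pool.Agent.NPC Pool.Agent.NPC.H532 Pool.Agent.H420_NCF Pool.Agent.H687R2.LLL
open Pool.Agent.Helper69K1 Pool.Agent.Helper69K1.Gr Pool.Agent.Helper69K1.GrU
open Pool.Agent.Helper69K1.GrB

/-- The diagonal blocks of the values of `A` at complex points, in block upper triangular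
coordinates given by some invertible complex matrix `P`, are closed under iterated commutators,
each block for itself and with its own length `k`. The blocks are the level sets of `g`. -/
def HasClosedBlocks (A : SMat) : Prop :=
  ∃ (P : Matrix (Fin A.length) (Fin A.length) ℂ) (g : Fin A.length → ℕ), P.det ≠ 0 ∧
    (∀ c : ℕ → ℂ, (P * substC A c * P⁻¹).BlockTriangular g) ∧
    ∀ l, ∃ k, 1 ≤ k ∧ ∀ c : ℕ → ℕ → ℂ, ∃ d : ℕ → ℂ,
      (P * substC A d * P⁻¹).toSquareBlock g l =
        iterComm (fun i => (P * substC A (c i) * P⁻¹).toSquareBlock g l) k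

theorem aeval_detC (A : SMat) (c : ℕ → ℂ) :
    MvPolynomial.aeval c (symMat A).det = (substC A c).det := by
  have h := RingHom.map_det ((MvPolynomial.aeval c : MvPolynomial ℕ ℤ →ₐ[ℤ] ℂ) :
    MvPolynomial ℕ ℤ →+* ℂ) (symMat A)
  exact h

theorem mem_cxs {A : SMat} {X : Matrix (Fin A.length) (Fin A.length) ℂ} :
    X ∈ cxs (spB A.length (coeffs A)) ↔ ∃ c, X = substC A c := by
  have hcx : ∀ M : Matrix (Fin A.length) (Fin A.length) ℚ, cx M = M.map (algebraMap ℚ ℂ) :=
    fun M => rfl
  constructor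
  · intro h
    have h1 : cxs (spB A.length (coeffs A)) ≤ LinearMap.range (substCL A) := by
      refine Submodule.span_le.2 ?_
      rintro _ ⟨M, hM, rfl⟩
      obtain ⟨q, rfl⟩ := mem_range_subst.2 hM
      refine ⟨fun v => (q v : ℂ), ?_⟩
      change substC A _ = _
      rw [substC_eq_sum, subst_eq_sum]
      ext i j
      rw [Matrix.sum_apply, Matrix.map_apply, Matrix.sum_apply, map_sum]
      refine Finset.sum_congr rfl fun v _ => ?_
      rw [Matrix.smul_apply, Matrix.smul_apply, smul_eq_mul, smul_eq_mul, map_mul, hcx,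
        Matrix.map_apply]
      rfl
    obtain ⟨c, hc⟩ := h1 h
    exact ⟨c, hc.symm⟩
  · rintro ⟨c, rfl⟩
    rw [substC_eq_sum]
    refine Submodule.sum_mem _ fun v hv => Submodule.smul_mem _ _ (Submodule.subset_span ?_)
    exact ⟨mq A.length (coefM A v), Submodule.subset_span
      ⟨coefM A v, List.mem_map.2 ⟨v, List.mem_toFinset.1 hv, rfl⟩, rfl⟩, hcx _⟩

/-- The test on symbolic matrices. -/
noncomputable def symS (A : SMat) : Bool :=
  (A.all fun r => decide (r.length = A.length)) && testG (addZ (inp A))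

theorem poly_symS : Poly symS := by
  unfold symS
  exact Poly.and (poly_isSquare Poly.id) (poly_testG.comp (poly_addZ.comp (poly_inp Poly.id)))

theorem addZ_sound {I : Inp} (h : testG (addZ I) = true) :
    ∃ Y ∈ hG (spB I.1.length I.2), Y.det ≠ 0 := by
  have h0 : testG (I.1, prodF I.1.length (ztF I.1.length I.2) I.2 ++ radF I.1.length I.2) =
    true := h
  obtain ⟨c, hc⟩ := testG_sound h0
  obtain ⟨Y, hY, hdet⟩ : ∃ X ∈ spB I.1.length
      (prodF I.1.length (ztF I.1.length I.2) I.2 ++ radF I.1.length I.2), X.det ≠ 0 :=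
    ex_cq_iff.1 ⟨c, hc⟩
  rw [spB_addZ] at hY
  exact ⟨Y, hY, hdet⟩

theorem addZ_complete (hG' : S_GU) {I : Inp} {κ : ℕ}
    (hB : com (hG (spB I.1.length I.2)) (κ + 1) ≤ hG (spB I.1.length I.2))
    (h : ∃ X ∈ hG (spB I.1.length I.2), X.det ≠ 0) : testG (addZ I) = true := by
  change testG (I.1, prodF I.1.length (ztF I.1.length I.2) I.2 ++ radF I.1.length I.2) = true
  refine testU_complete hG' κ ?_ ?_
  · change com (spB I.1.length (prodF I.1.length (ztF I.1.length I.2) I.2 ++
      radF I.1.length I.2)) (κ + 1) ≤ spB I.1.length (prodF I.1.length (ztF I.1.length I.2) I.2 ++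
        radF I.1.length I.2)
    rw [spB_addZ]
    exact hB
  · change ∃ c, (cq I.1.length (prodF I.1.length (ztF I.1.length I.2) I.2 ++
      radF I.1.length I.2) c).det ≠ 0
    refine ex_cq_iff.2 ?_
    rw [spB_addZ]
    exact h

theorem symS_sound (h1 : S_F1) {A : SMat} (h : symS A = true) :
    IsSquare A ∧ (symMat A).det ≠ 0 := by
  rw [symS, Bool.and_eq_true] at h
  refine ⟨(isSquare_iff A).1 h.1, fun h0 => ?_⟩
  have h2 := addZ_sound h.2
  rw [length_inp] at h2
  obtain ⟨Y, hY, hdet⟩ := h2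
  obtain ⟨X, hX, hdX⟩ := h1 A.length _ Y hY hdet
  obtain ⟨c, rfl⟩ := mem_cxs.1 hX
  rw [← aeval_detC, h0, map_zero] at hdX
  exact hdX rfl

theorem iterComm_congr' {R : Type} [Ring R] {M M' : ℕ → R} :
    ∀ k, (∀ i ≤ k, M i = M' i) → iterComm M k = iterComm M' k
  | 0, h => h 0 le_rfl
  | k + 1, h => by
      rw [iterComm, iterComm, iterComm_congr' k fun i hi => h i (Nat.le_succ_of_le hi),
        h (k + 1) le_rfl]

/-- `com h k` is spanned by the iterated commutators of `k + 1` elements of `h`. -/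
theorem com_le_span' {n : Type} [Fintype n] [DecidableEq n] (h : Submodule ℚ (Matrix n n ℚ)) :
    ∀ k, com h k ≤ Submodule.span ℚ {X | ∃ M : ℕ → Matrix n n ℚ, (∀ i, M i ∈ h) ∧
      X = iterComm M k}
  | 0 => fun X hX => Submodule.subset_span ⟨fun _ => X, fun _ => hX, rfl⟩
  | k + 1 => by
      rw [com, Submodule.span_le]
      rintro _ ⟨a, ha, b, hb, rfl⟩
      have hb' := com_le_span' h k hb
      refine Submodule.span_induction (p := fun b _ => a * b - b * a ∈ Submodule.span ℚ
        {X | ∃ M : ℕ → Matrix n n ℚ, (∀ i, M i ∈ h) ∧ X = iterComm M (k + 1)}) ?_ ?_ ?_ ?_ hb'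
      · rintro _ ⟨M, hM, rfl⟩
        refine Submodule.subset_span ⟨fun i => if i = k + 1 then a else M i, fun i => ?_, ?_⟩
        · by_cases hi : i = k + 1
          · simpa [hi] using ha
          · simpa [hi] using hM i
        · rw [iterComm, iterComm_congr' (M := fun i => if i = k + 1 then a else M i) (M' := M) k
            fun i hi => if_neg (by omega)]
          simp
      · simp
      · intro x y _ _ hx hy
        have : a * (x + y) - (x + y) * a = (a * x - x * a) + (a * y - y * a) := by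
          rw [mul_add, add_mul]; abel
        rw [this]
        exact Submodule.add_mem _ hx hy
      · intro r x _ hx
        have : a * (r • x) - (r • x) * a = r • (a * x - x * a) := by
          rw [mul_smul_comm, smul_mul_assoc, smul_sub]
        rw [this]
        exact Submodule.smul_mem _ _ hx

theorem map_iterComm {R S : Type} [Ring R] [Ring S] (f : R →+* S) (M : ℕ → R) :
    ∀ k, f (iterComm M k) = iterComm (fun i => f (M i)) k
  | 0 => rfl
  | k + 1 => by
      rw [iterComm, iterComm, map_sub, map_mul, map_mul, map_iterComm f M k]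

/-- Closure of the rational enlarged space. -/
theorem com_hG (h2 : S_F2c) (h3 : S_F2d) {N : ℕ} (B : Submodule ℚ (Matrix (Fin N) (Fin N) ℚ))
    (P : Matrix (Fin N) (Fin N) ℂ) (hP : P.det ≠ 0) (g : Fin N → ℕ)
    (hg : ∀ X ∈ cxs B, (P * X * P⁻¹).BlockTriangular g)
    (hk : ∀ l, ∃ k, 1 ≤ k ∧ ∀ M : ℕ → Matrix (Fin N) (Fin N) ℂ, (∀ i, M i ∈ cxs B) →
      ∃ Y ∈ cxs B, (P * Y * P⁻¹).toSquareBlock g l =
        iterComm (fun i => (P * M i * P⁻¹).toSquareBlock g l) k) :
    ∃ κ, com (hG B) (κ + 1) ≤ hG B := by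
  obtain ⟨k, hk1, h4⟩ := h2 (Fin N) (cxs B) P hP g hg hk
  obtain ⟨κ, rfl⟩ : ∃ κ, k = κ + 1 := ⟨k - 1, by omega⟩
  refine ⟨κ, (com_le_span' _ _).trans (Submodule.span_le.2 ?_)⟩
  rintro _ ⟨M, hM, rfl⟩
  refine (h3 N B _).1 ?_
  have h5 : (iterComm M (κ + 1)).map (algebraMap ℚ ℂ) =
      iterComm (fun i => (M i).map (algebraMap ℚ ℂ)) (κ + 1) :=
    map_iterComm (algebraMap ℚ ℂ).mapMatrix M (κ + 1)
  rw [h5]
  exact h4 _ fun i => (h3 N B _).2 (hM i)

theorem one_mem_ztG {K : Type} [Field K] {n : Type} [Fintype n] [DecidableEq n]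
    (A : Subalgebra K (Matrix n n K)) : (1 : Matrix n n K) ∈ ztG A :=
  ⟨A.one_mem, fun a _ => by rw [one_mul, mul_one, sub_self]; exact (radG A).zero_mem⟩

theorem le_hG {K : Type} [Field K] {n : Type} [Fintype n] [DecidableEq n]
    (B : Submodule K (Matrix n n K)) : B ≤ hG B := by
  intro X hX
  refine Submodule.mem_sup_left ?_
  have h1 := Submodule.mul_mem_mul
    (one_mem_ztG (Algebra.adjoin K (B : Set (Matrix n n K)))) hX
  rwa [one_mul] at h1

theorem symS_complete (hG' : S_GU) (h2 : S_F2c) (h3 : S_F2d) {A : SMat} (hs : IsSquare A)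
    (hA : HasClosedBlocks A) (h : (symMat A).det ≠ 0) : symS A = true := by
  rw [symS, Bool.and_eq_true]
  obtain ⟨P, g, hP, hg, hk⟩ := hA
  obtain ⟨κ, hκ⟩ := com_hG h2 h3 (spB A.length (coeffs A)) P hP g
    (fun X hX => by
      obtain ⟨c, rfl⟩ := mem_cxs.1 hX
      exact hg c)
    (fun l => by
      obtain ⟨k, hk1, hk2⟩ := hk l
      refine ⟨k, hk1, fun M hM => ?_⟩
      choose c hc using fun i => mem_cxs.1 (hM i)
      obtain ⟨d, hd⟩ := hk2 c
      refine ⟨substC A d, mem_cxs.2 ⟨d, rfl⟩, ?_⟩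
      rw [hd]
      congr 1
      funext i
      rw [hc i])
  have h5 : ∃ X ∈ hG (spB A.length (coeffs A)), X.det ≠ 0 := by
    obtain ⟨c, hc⟩ := (det_ne_zero_iff A).1 h
    exact ⟨_, le_hG _ (mem_range_subst.1 ⟨c, rfl⟩), hc⟩
  refine ⟨(isSquare_iff A).2 hs, addZ_complete hG' (κ := κ) ?_ ?_⟩
  · rw [length_inp]
    exact hκ
  · rw [length_inp]
    exact h5

end Pool.Agent.Helper69K1.GrS
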