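import Pool.Agent.Helper69K1.GrS.Stm
import Pool.Agent.Helper69K1.GrB.Fin

/-!
# The enlarged space in polynomial time
-/

set_option linter.unusedSectionVars false

namespace Pool.Agent.Helper69K1.GrS

open Module Pool.Agent.NPC Pool.Agent.NPC.H532 Pool.Agent.H420_NCF Pool.Agent.H687R2.LLL
open Pool.Agent.Helper69K1 Pool.Agent.Helper69K1.Gr Pool.Agent.Helper69K1.GrU
open Pool.Agent.Helper69K1.GrB

variable {α : Type} [TEnc α]

/-- The pairs of elements of a list. -/
def prs (L : List Mat) : List (Mat × Mat) := L.flatMap fun b => L.map fun c => (b, c)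

theorem mem_prs {L : List Mat} {p : Mat × Mat} : p ∈ prs L ↔ p.1 ∈ L ∧ p.2 ∈ L := by
  unfold prs
  simp only [List.mem_flatMap, List.mem_map]
  constructor
  · rintro ⟨b, hb, c, hc, rfl⟩
    exact ⟨hb, hc⟩
  · rintro ⟨h1, h2⟩
    exact ⟨p.1, h1, p.2, h2, rfl⟩

theorem poly_prs {L : α → List Mat} (hL : Poly L) : Poly (fun a => prs (L a)) := by
  unfold prs
  refine Poly.flatMap (F := fun a b => (L a).map fun c => (b, c)) hL ?_
  exact NPC.Poly.map (α := α × Mat) (l := fun p => L p.1) (F := fun p c => (p.2, c))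
    (hL.comp (Poly.fst Poly.id)) (Poly.pair (Poly.snd (Poly.fst Poly.id)) (Poly.snd Poly.id))

/-- The relations of the centre modulo the radical. -/
noncomputable def ztK (N : ℕ) (L : List Mat) : List (List ℤ) :=
  kerT L.length (prs L) fun p k => tr2 N (brk N (L.getD k []) p.1) p.2

/-- A spanning list of the centre modulo the radical. -/
noncomputable def ztF (N : ℕ) (Zs : List Mat) : List Mat :=
  (ztK N (algF N Zs)).map fun u => cmb N (algF N Zs) u

theorem poly_ztK {N : α → ℕ} {L : α → List Mat} (hN : UPoly N) (hL : Poly L) :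
    Poly (fun a => ztK (N a) (L a)) := by
  unfold ztK
  refine poly_kerT (M := fun a => (L a).length) (cols := fun a => prs (L a))
    (φ := fun a p k => tr2 (N a) (brk (N a) ((L a).getD k []) p.1) p.2) (UPoly.length hL)
    (poly_prs hL) ?_
  have h1 : Poly (fun p : (α × ℕ) × (Mat × Mat) => p.1.1) := Poly.fst (Poly.fst Poly.id)
  exact poly_tr2 (hN.comp h1) (poly_brk (hN.comp h1)
    (Poly.getD (hL.comp h1) (Poly.snd (Poly.fst Poly.id)) (NPC.Poly.const []))
    (Poly.fst (Poly.snd Poly.id))) (Poly.snd (Poly.snd Poly.id))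

theorem poly_ztF {N : α → ℕ} {Zs : α → List Mat} (hN : UPoly N) (hZ : Poly Zs) :
    Poly (fun a => ztF (N a) (Zs a)) := by
  unfold ztF
  have hA : Poly (fun a => algF (N a) (Zs a)) := poly_algF hN hZ
  refine NPC.Poly.map (F := fun a u => cmb (N a) (algF (N a) (Zs a)) u) (poly_ztK hN hA) ?_
  exact poly_cmb (hN.comp (Poly.fst Poly.id)) (hA.comp (Poly.fst Poly.id)) (Poly.snd Poly.id)

theorem spB_ztF (N : ℕ) (Zs : List Mat) :
    spB N (ztF N Zs) = ztG
      (Algebra.adjoin ℚ {M : Matrix (Fin N) (Fin N) ℚ | ∃ Z ∈ Zs, M = mq N Z}) := by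
  set A := Algebra.adjoin ℚ {M : Matrix (Fin N) (Fin N) ℚ | ∃ Z ∈ Zs, M = mq N Z} with hA
  set L := algF N Zs with hL
  have hsp : ∀ M, M ∈ A ↔ M ∈ spB N L := by
    intro M
    rw [hL, spB_algF]
    rfl
  obtain ⟨h1, h2⟩ := kerT_spec L.length (prs L) fun p k => tr2 N (brk N (L.getD k []) p.1) p.2
  -- the value of the table
  have htab : ∀ (c : ℕ → ℚ) (p : Mat × Mat), ∑ k ∈ Finset.range L.length,
      c k * ((tr2 N (brk N (L.getD k []) p.1) p.2 : ℤ) : ℚ) =
        ((cq N L c * mq N p.1 - mq N p.1 * cq N L c) * mq N p.2).trace := by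
    intro c p
    have e1 : (cq N L c * mq N p.1 - mq N p.1 * cq N L c) * mq N p.2 =
        ∑ k ∈ Finset.range L.length, c k • ((mq N (L.getD k []) * mq N p.1 -
          mq N p.1 * mq N (L.getD k [])) * mq N p.2) := by
      rw [cq, Finset.sum_mul, Finset.mul_sum, ← Finset.sum_sub_distrib, Finset.sum_mul]
      refine Finset.sum_congr rfl fun k _ => ?_
      rw [smul_mul_assoc, mul_smul_comm, ← smul_sub, smul_mul_assoc]
    rw [e1, Matrix.trace_sum]
    refine Finset.sum_congr rfl fun k _ => ?_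
    rw [tr2_eq, mq_brk, Matrix.trace_smul, smul_eq_mul]
  apply le_antisymm
  · refine Submodule.span_le.2 ?_
    rintro _ ⟨B, hB, rfl⟩
    obtain ⟨u, hu, rfl⟩ := List.mem_map.1 hB
    obtain ⟨h3, h4⟩ := h1 u hu
    rw [mq_cmb]
    have hzA : cq N L (qv u) ∈ A := (hsp _).2 (cq_mem_spB N L (qv u))
    refine ⟨hzA, fun b hb => ⟨A.sub_mem (A.mul_mem hzA hb) (A.mul_mem hb hzA), fun c hc => ?_⟩⟩
    have hb' := (hsp b).1 hb
    have hc' := (hsp c).1 hc
    refine Submodule.span_induction (p := fun b _ =>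
      ((cq N L (qv u) * b - b * cq N L (qv u)) * c).trace = 0) ?_ ?_ ?_ ?_ hb'
    · rintro _ ⟨b, hbL, rfl⟩
      refine Submodule.span_induction (p := fun c _ =>
        ((cq N L (qv u) * mq N b - mq N b * cq N L (qv u)) * c).trace = 0) ?_ ?_ ?_ ?_ hc'
      · rintro _ ⟨c, hcL, rfl⟩
        have h6 := htab (qv u) (b, c)
        rw [← h6]
        have h5 := h4 (b, c) (mem_prs.2 ⟨hbL, hcL⟩)
        have h7 : ((∑ k ∈ Finset.range L.length, u.getD k 0 *
            tr2 N (brk N (L.getD k []) b) c : ℤ) : ℚ) = 0 := by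
          rw [h5]; rfl
        push_cast at h7
        exact h7
      · rw [mul_zero, Matrix.trace_zero]
      · intro x y _ _ hx hy
        rw [mul_add, Matrix.trace_add, hx, hy, add_zero]
      · intro r x _ hx
        rw [mul_smul_comm, Matrix.trace_smul, hx, smul_zero]
    · rw [mul_zero, zero_mul, sub_zero, zero_mul, Matrix.trace_zero]
    · intro x y _ _ hx hy
      have e2 : (cq N L (qv u) * (x + y) - (x + y) * cq N L (qv u)) * c =
          (cq N L (qv u) * x - x * cq N L (qv u)) * c +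
          (cq N L (qv u) * y - y * cq N L (qv u)) * c := by noncomm_ring
      rw [e2, Matrix.trace_add, hx, hy, add_zero]
    · intro r x _ hx
      rw [mul_smul_comm, smul_mul_assoc, ← smul_sub, smul_mul_assoc, Matrix.trace_smul, hx,
        smul_zero]
  · rintro M ⟨hM, hM2⟩
    obtain ⟨c, rfl⟩ := mem_spB.1 ((hsp M).1 hM)
    have h5 := h2 c (fun p hp => by
      rw [htab]
      obtain ⟨hp1, hp2⟩ := mem_prs.1 hp
      exact (hM2 _ ((hsp _).2 (Submodule.subset_span ⟨p.1, hp1, rfl⟩))).2 _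
        ((hsp _).2 (Submodule.subset_span ⟨p.2, hp2, rfl⟩)))
    set Φ : (Fin L.length → ℚ) →ₗ[ℚ] Matrix (Fin N) (Fin N) ℚ :=
      ∑ i : Fin L.length, (LinearMap.proj i : (Fin L.length → ℚ) →ₗ[ℚ] ℚ).smulRight
        (mq N (L.getD i [])) with hΦ
    have hΦc : ∀ d : ℕ → ℚ, Φ (fun i => d i) = cq N L d := by
      intro d
      rw [hΦ, LinearMap.sum_apply, cq,
        ← Fin.sum_univ_eq_sum_range (fun i => d i • mq N (L.getD i [])) L.length]
      refine Finset.sum_congr rfl fun i _ => ?_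
      simp [LinearMap.smulRight_apply]
    rw [← hΦc]
    have h6 := Submodule.mem_map_of_mem (f := Φ) h5
    rw [vspan, Submodule.map_span] at h6
    refine Submodule.span_mono ?_ h6
    rintro _ ⟨_, ⟨u, hu, rfl⟩, rfl⟩
    refine ⟨cmb N L u, List.mem_map.2 ⟨u, hu, rfl⟩, ?_⟩
    rw [mq_cmb]
    exact hΦc (qv u)

theorem mq_mmul (N : ℕ) (A B : Mat) : mq N (mmul N A B) = mq N A * mq N B := by
  ext i j
  rw [mq, mmul, entry_tab _ i.2 j.2, list_sum_range, Matrix.mul_apply]
  refine Finset.sum_congr rfl fun k _ => ?_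
  push_cast
  rfl

/-- The products. -/
def prodF (N : ℕ) (K Bs : List Mat) : List Mat := K.flatMap fun z => Bs.map fun x => mmul N z x

theorem poly_prodF {N : α → ℕ} {K Bs : α → List Mat} (hN : UPoly N) (hK : Poly K)
    (hB : Poly Bs) : Poly (fun a => prodF (N a) (K a) (Bs a)) := by
  unfold prodF
  refine Poly.flatMap (F := fun a z => (Bs a).map fun x => mmul (N a) z x) hK ?_
  have h1 : Poly (fun p : (α × Mat) × Mat => p.1.1) := Poly.fst (Poly.fst Poly.id)
  exact NPC.Poly.map (α := α × Mat) (l := fun p => Bs p.1) (F := fun p x => mmul (N p.1) p.2 x)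
    (hB.comp (Poly.fst Poly.id)) (Poly_mmul (hN.comp h1) (Poly.snd (Poly.fst Poly.id))
      (Poly.snd Poly.id))

theorem spB_prodF (N : ℕ) (K Bs : List Mat) :
    spB N (prodF N K Bs) = spB N K * spB N Bs := by
  rw [spB, spB, spB, Submodule.span_mul_span]
  congr 1
  ext M
  rw [Set.mem_mul]
  constructor
  · rintro ⟨B, hB, rfl⟩
    obtain ⟨z, hz, hB⟩ := List.mem_flatMap.1 hB
    obtain ⟨x, hx, rfl⟩ := List.mem_map.1 hB
    exact ⟨_, ⟨z, hz, rfl⟩, _, ⟨x, hx, rfl⟩, (mq_mmul N z x).symm⟩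
  · rintro ⟨_, ⟨z, hz, rfl⟩, _, ⟨x, hx, rfl⟩, rfl⟩
    exact ⟨mmul N z x, List.mem_flatMap.2 ⟨z, hz, List.mem_map.2 ⟨x, hx, rfl⟩⟩,
      (mq_mmul N z x).symm⟩

/-- The input of the enlarged space. -/
noncomputable def addZ (I : Inp) : Inp :=
  (I.1, prodF I.1.length (ztF I.1.length I.2) I.2 ++ radF I.1.length I.2)

theorem poly_addZ : Poly addZ := by
  unfold addZ
  have h1 : Poly (fun I : Inp => I.1) := Poly.fst Poly.id
  have h2 : Poly (fun I : Inp => I.2) := Poly.snd Poly.id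
  have h3 : UPoly (fun I : Inp => I.1.length) := UPoly.length h1
  exact Poly.pair h1 (Poly.append (poly_prodF h3 (poly_ztF h3 h2) h2) (poly_radF h3 h2))

theorem spB_addZ (I : Inp) : spB I.1.length
    (prodF I.1.length (ztF I.1.length I.2) I.2 ++ radF I.1.length I.2) =
      hG (spB I.1.length I.2) := by
  rw [spB_append, spB_prodF, spB_ztF, spB_radF, adjoin_spB]
  rfl

end Pool.Agent.Helper69K1.GrS
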