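import Pool.Agent.Helper69K1.GrB.Stm

/-!
# Spaces whose diagonal blocks, in hidden block triangular coordinates, are separately closed under
iterated commutators: statements of the pieces
-/

namespace Pool.Agent.Helper69K1.GrS

open Module Pool.Agent.Helper69K1 Pool.Agent.Helper69K1.Gr Pool.Agent.Helper69K1.GrB

/-- The radical of the trace form of an algebra of matrices. -/
def radG {K : Type} [Field K] {n : Type} [Fintype n] [DecidableEq n]
    (A : Subalgebra K (Matrix n n K)) : Submodule K (Matrix n n K) where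
  carrier := {r | r ∈ A ∧ ∀ b ∈ A, (r * b).trace = 0}
  add_mem' := fun {r s} hr hs => ⟨A.add_mem hr.1 hs.1, fun b hb => by
    rw [add_mul, Matrix.trace_add, hr.2 b hb, hs.2 b hb, add_zero]⟩
  zero_mem' := ⟨A.zero_mem, fun b _ => by rw [zero_mul, Matrix.trace_zero]⟩
  smul_mem' := fun c r hr => ⟨A.smul_mem hr.1 c, fun b hb => by
    rw [smul_mul_assoc, Matrix.trace_smul, hr.2 b hb, smul_zero]⟩

/-- The centre modulo the radical. -/
def ztG {K : Type} [Field K] {n : Type} [Fintype n] [DecidableEq n]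
    (A : Subalgebra K (Matrix n n K)) : Submodule K (Matrix n n K) where
  carrier := {z | z ∈ A ∧ ∀ a ∈ A, z * a - a * z ∈ radG A}
  add_mem' := fun {r s} hr hs => ⟨A.add_mem hr.1 hs.1, fun a ha => by
    have h1 : (r + s) * a - a * (r + s) = (r * a - a * r) + (s * a - a * s) := by
      rw [add_mul, mul_add]; abel
    rw [h1]
    exact (radG A).add_mem (hr.2 a ha) (hs.2 a ha)⟩
  zero_mem' := ⟨A.zero_mem, fun a _ => by
    rw [zero_mul, mul_zero, sub_self]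
    exact (radG A).zero_mem⟩
  smul_mem' := fun c r hr => ⟨A.smul_mem hr.1 c, fun a ha => by
    have h1 : (c • r) * a - a * (c • r) = c • (r * a - a * r) := by
      rw [smul_mul_assoc, mul_smul_comm, smul_sub]
    rw [h1]
    exact (radG A).smul_mem c (hr.2 a ha)⟩

/-- The space enlarged by the centre and the radical. -/
def hG {K : Type} [Field K] {n : Type} [Fintype n] [DecidableEq n]
    (B : Submodule K (Matrix n n K)) : Submodule K (Matrix n n K) :=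
  ztG (Algebra.adjoin K (B : Set (Matrix n n K))) * B ⊔
    radG (Algebra.adjoin K (B : Set (Matrix n n K)))

/-- The complex space spanned by a rational one. -/
def cxs {N : ℕ} (B : Submodule ℚ (Matrix (Fin N) (Fin N) ℚ)) :
    Submodule ℂ (Matrix (Fin N) (Fin N) ℂ) :=
  Submodule.span ℂ {Z | ∃ X ∈ B, Z = X.map (algebraMap ℚ ℂ)}

/-- F1a: an injective element of the enlarged space yields one of the space. -/
def S_F1a : Prop := ∀ (𝓐 : Type) [Ring 𝓐] [Algebra ℂ 𝓐] (R B : Submodule ℂ 𝓐),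
  (∀ a, ∀ r ∈ R, a * r ∈ R) →
  ∀ (V : Type) [AddCommGroup V] [Module ℂ V] [FiniteDimensional ℂ V]
    (ρ : 𝓐 →ₐ[ℂ] Module.End ℂ V), (∀ r ∈ R, IsNilpotent (ρ r)) →
  ∀ Y ∈ Submodule.span ℂ {y | ∃ z x, (∀ a, z * a - a * z ∈ R) ∧ x ∈ B ∧ y = z * x} ⊔ R,
    Function.Injective (ρ Y) → ∃ X ∈ B, Function.Injective (ρ X)

/-- F1: soundness. -/
def S_F1 : Prop := ∀ (N : ℕ) (B : Submodule ℚ (Matrix (Fin N) (Fin N) ℚ)),
  ∀ Y ∈ hG B, Y.det ≠ 0 → ∃ X ∈ cxs B, X.det ≠ 0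

/-- F2a: the semisimple quotient is a product of full matrix algebras. -/
def S_F2a : Prop := ∀ (n : Type) [Fintype n] [DecidableEq n] (A : Subalgebra ℂ (Matrix n n ℂ)),
  ∃ (m : ℕ) (d : Fin m → ℕ) (p : ∀ i, A →ₐ[ℂ] Matrix (Fin (d i)) (Fin (d i)) ℂ),
    (∀ i, 0 < d i) ∧ (∀ a : A, (∀ i, p i a = 0) ↔ (a : Matrix n n ℂ) ∈ radG A) ∧
    ∀ c : ∀ i, Matrix (Fin (d i)) (Fin (d i)) ℂ, ∃ a, ∀ i, p i a = c i

/-- F2b: every simple quotient is a quotient of a diagonal block. -/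
def S_F2b : Prop := ∀ (n : Type) [Fintype n] [DecidableEq n] (A : Subalgebra ℂ (Matrix n n ℂ))
  (P : Matrix n n ℂ), P.det ≠ 0 → ∀ g : n → ℕ,
  (∀ a ∈ A, (P * a * P⁻¹).BlockTriangular g) →
  ∀ (d : ℕ) (p : A →ₐ[ℂ] Matrix (Fin d) (Fin d) ℂ), 0 < d → Function.Surjective p →
  (∀ a : A, (a : Matrix n n ℂ) ∈ radG A → p a = 0) →
  ∃ l, ∀ a : A, (P * (a : Matrix n n ℂ) * P⁻¹).toSquareBlock g l = 0 → p a = 0

/-- F2c: the complex enlarged space is closed. -/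
def S_F2c : Prop := ∀ (n : Type) [Fintype n] [DecidableEq n] (B : Submodule ℂ (Matrix n n ℂ))
  (P : Matrix n n ℂ), P.det ≠ 0 → ∀ g : n → ℕ,
  (∀ X ∈ B, (P * X * P⁻¹).BlockTriangular g) →
  (∀ l, ∃ k, 1 ≤ k ∧ ∀ M : ℕ → Matrix n n ℂ, (∀ i, M i ∈ B) → ∃ Y ∈ B,
    (P * Y * P⁻¹).toSquareBlock g l =
      iterComm (fun i => (P * M i * P⁻¹).toSquareBlock g l) k) →
  ∃ k, 1 ≤ k ∧ ∀ M : ℕ → Matrix n n ℂ, (∀ i, M i ∈ hG B) → iterComm M k ∈ hG B

/-- F2d: descent. -/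
def S_F2d : Prop := ∀ (N : ℕ) (B : Submodule ℚ (Matrix (Fin N) (Fin N) ℚ))
  (X : Matrix (Fin N) (Fin N) ℚ), X.map (algebraMap ℚ ℂ) ∈ hG (cxs B) ↔ X ∈ hG B

end Pool.Agent.Helper69K1.GrS
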